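import Mathlib

set_option autoImplicit false
set_option linter.unusedSimpArgs false
set_option linter.unusedSectionVars false

/-! Munn's theorem for free inverse monoids, in the form: two words are congruent modulo the
Vagner congruence iff they visit the same vertices of the Cayley tree and end at the same vertex.
Vertices are reduced words written in reverse order. -/

namespace Pool.Agent.FIM

variable {k : ℕ}

/-- Letters and their formal inverses. -/
abbrev Lt (k : ℕ) := Fin k × Bool

/-- Inverse of a letter. -/
def iv (x : Lt k) : Lt k := (x.1, !x.2)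

@[simp] lemma iv_iv (x : Lt k) : iv (iv x) = x := by simp [iv]

lemma iv_ne (x : Lt k) : iv x ≠ x := by
  intro h
  have := congrArg Prod.snd h
  simp [iv] at this

/-- Inverse of a word. -/
def wi (w : List (Lt k)) : List (Lt k) := (w.map iv).reverse

@[simp] lemma wi_nil : wi ([] : List (Lt k)) = [] := rfl

@[simp] lemma wi_cons (a : Lt k) (w : List (Lt k)) : wi (a :: w) = wi w ++ [iv a] := by
  simp [wi]

@[simp] lemma wi_append (u v : List (Lt k)) : wi (u ++ v) = wi v ++ wi u := by
  simp [wi]

@[simp] lemma wi_wi (u : List (Lt k)) : wi (wi u) = u := by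
  induction u with
  | nil => rfl
  | cons a u ih => simp [ih]

/-- One step of a walk: multiply the vertex `x` (a reduced word, last letter first) by `a`. -/
def stp : List (Lt k) → Lt k → List (Lt k)
  | [], a => [a]
  | b :: x, a => if b = iv a then x else a :: b :: x

/-- End vertex of the walk labelled by a word. -/
def pos (x : List (Lt k)) (w : List (Lt k)) : List (Lt k) := w.foldl stp x

/-- Vertices visited by the walk labelled by a word. -/
def vis : List (Lt k) → List (Lt k) → List (List (Lt k))
  | x, [] => [x]
  | x, a :: w => x :: vis (stp x a) w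

/-- Reduced words. -/
def Red (x : List (Lt k)) : Prop := x.IsChain (fun a b => a ≠ iv b)

@[simp] lemma pos_nil (x : List (Lt k)) : pos x [] = x := rfl

@[simp] lemma pos_cons (x : List (Lt k)) (a : Lt k) (w : List (Lt k)) :
    pos x (a :: w) = pos (stp x a) w := rfl

@[simp] lemma pos_append (x : List (Lt k)) (u v : List (Lt k)) :
    pos x (u ++ v) = pos (pos x u) v := by simp [pos]

@[simp] lemma vis_nil (x : List (Lt k)) : vis x [] = [x] := rfl

@[simp] lemma vis_cons (x : List (Lt k)) (a : Lt k) (w : List (Lt k)) :
    vis x (a :: w) = x :: vis (stp x a) w := rfl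

lemma start_mem_vis (x w : List (Lt k)) : x ∈ vis x w := by
  cases w <;> simp

lemma pos_mem_vis (x w : List (Lt k)) : pos x w ∈ vis x w := by
  induction w generalizing x with
  | nil => simp
  | cons a w ih => simp [ih]

lemma mem_vis_append (t x u v : List (Lt k)) :
    t ∈ vis x (u ++ v) ↔ t ∈ vis x u ∨ t ∈ vis (pos x u) v := by
  induction u generalizing x with
  | nil =>
    simp only [List.nil_append, vis_nil, List.mem_singleton, pos_nil]
    constructor
    · exact Or.inr
    · rintro (rfl | h)
      · exact start_mem_vis _ _
      · exact h
  | cons a u ih => simp [ih, or_assoc]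

lemma stp_red {x : List (Lt k)} (hx : Red x) (a : Lt k) : Red (stp x a) := by
  cases x with
  | nil => simp [stp, Red]
  | cons b x =>
    simp only [stp]
    split_ifs with h
    · exact List.IsChain.tail hx
    · refine List.isChain_cons_cons.2 ⟨?_, hx⟩
      intro h'
      apply h
      rw [h', iv_iv]

lemma stp_stp {x : List (Lt k)} (hx : Red x) (a : Lt k) : stp (stp x a) (iv a) = x := by
  cases x with
  | nil => simp [stp]
  | cons b x =>
    simp only [stp]
    split_ifs with h
    · cases x with
      | nil => simp [h, stp]
      | cons c x =>
        have := (List.isChain_cons_cons.1 hx).1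
        simp only [iv_iv, stp]
        rw [if_neg, h]
        intro hc
        apply this
        rw [h, hc]
    · simp [stp]

lemma pos_red {x : List (Lt k)} (hx : Red x) (w : List (Lt k)) : Red (pos x w) := by
  induction w generalizing x with
  | nil => simpa using hx
  | cons a w ih => simpa using ih (stp_red hx a)

lemma vis_red {x : List (Lt k)} (hx : Red x) (w : List (Lt k)) {t : List (Lt k)}
    (ht : t ∈ vis x w) : Red t := by
  induction w generalizing x with
  | nil => simp at ht; exact ht ▸ hx
  | cons a w ih =>
    simp at ht
    rcases ht with rfl | ht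
    · exact hx
    · exact ih (stp_red hx a) ht

lemma red_nil : Red ([] : List (Lt k)) := List.isChain_nil

/-- Walking along a word and back. -/
lemma pos_wi {x : List (Lt k)} (hx : Red x) (u : List (Lt k)) : pos (pos x u) (wi u) = x := by
  induction u generalizing x with
  | nil => simp
  | cons a u ih =>
    simp only [pos_cons, wi_cons, pos_append, pos_nil]
    rw [ih (stp_red hx a), stp_stp hx]

lemma vis_wi {x : List (Lt k)} (hx : Red x) (u t : List (Lt k)) :
    t ∈ vis (pos x u) (wi u) ↔ t ∈ vis x u := by
  induction u generalizing x with
  | nil => simp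
  | cons a u ih =>
    simp only [pos_cons, wi_cons, vis_cons, List.mem_cons, mem_vis_append, vis_nil]
    rw [ih (stp_red hx a), pos_wi (stp_red hx a), stp_stp hx]
    have := start_mem_vis (stp x a) u
    constructor
    · rintro (h | h | h | h)
      · exact Or.inr h
      · exact Or.inr (h ▸ this)
      · exact Or.inl h
      · simp at h
    · rintro (h | h)
      · exact Or.inr (Or.inr (Or.inl h))
      · exact Or.inl h

/-- The relations defining the Vagner congruence. -/
def VR (k : ℕ) : FreeMonoid (Lt k) → FreeMonoid (Lt k) → Prop := fun a b =>
  (∃ u : FreeMonoid (Lt k),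
    a = u * FreeMonoid.ofList (wi (FreeMonoid.toList u)) * u ∧ b = u) ∨
  (∃ u v : FreeMonoid (Lt k),
    a = u * FreeMonoid.ofList (wi (FreeMonoid.toList u)) *
      v * FreeMonoid.ofList (wi (FreeMonoid.toList v)) ∧
    b = v * FreeMonoid.ofList (wi (FreeMonoid.toList v)) *
      u * FreeMonoid.ofList (wi (FreeMonoid.toList u)))

/-- Same Munn data. -/
def Same (w w' : List (Lt k)) : Prop :=
  (∀ t, t ∈ vis [] w ↔ t ∈ vis [] w') ∧ pos [] w = pos [] w'

lemma conGen_same_aux {a b : FreeMonoid (Lt k)} (h : conGen (VR k) a b) :
    ∀ x : List (Lt k), Red x →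
      (∀ t, t ∈ vis x (FreeMonoid.toList a) ↔ t ∈ vis x (FreeMonoid.toList b)) ∧
        pos x (FreeMonoid.toList a) = pos x (FreeMonoid.toList b) := by
  induction (show ConGen.Rel (VR k) a b from h) with
  | of a b hab =>
    intro x hx
    rcases hab with ⟨u, rfl, rfl⟩ | ⟨u, v, rfl, rfl⟩
    · simp only [FreeMonoid.toList_mul, FreeMonoid.toList_ofList, pos_append]
      constructor
      · intro t
        simp only [mem_vis_append, vis_wi hx, pos_append, pos_wi hx]
        tauto
      · rw [pos_wi hx]
    · simp only [FreeMonoid.toList_mul, FreeMonoid.toList_ofList, pos_append]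
      constructor
      · intro t
        simp only [mem_vis_append, vis_wi hx, pos_append, pos_wi hx]
        tauto
      · rw [pos_wi hx, pos_wi hx, pos_wi hx]
  | refl a => intro x _; simp
  | symm _ ih =>
    intro x hx
    have := ih (by assumption) x hx
    exact ⟨fun t => (this.1 t).symm, this.2.symm⟩
  | trans h1 h2 ih1 ih2 =>
    intro x hx
    have h1 := ih1 h1 x hx
    have h2 := ih2 h2 x hx
    exact ⟨fun t => (h1.1 t).trans (h2.1 t), h1.2.trans h2.2⟩
  | @mul a1 b1 a2 b2 h1 h2 ih1 ih2 =>
    intro x hx
    have h1 := ih1 h1 x hx
    simp only [FreeMonoid.toList_mul, pos_append]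
    have h2 := ih2 h2 _ (pos_red hx (FreeMonoid.toList b1))
    constructor
    · intro t
      rw [mem_vis_append, mem_vis_append, h1.1 t, h1.2, h2.1 t]
    · rw [h1.2, h2.2]

lemma same_of_conGen {w w' : List (Lt k)}
    (h : conGen (VR k) (FreeMonoid.ofList w) (FreeMonoid.ofList w')) : Same w w' := by
  simpa [Same] using conGen_same_aux h [] red_nil

section Abs

variable {M : Type*} [Monoid M] [StarMul M]
  (h1 : ∀ x : M, x * star x * x = x)
  (h2 : ∀ x y : M, x * star x * (y * star y) = y * star y * (x * star x))
  (l : Lt k → M) (hl : ∀ a, star (l a) = l (iv a))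

/-- Value of a word. -/
def val (l : Lt k → M) (w : List (Lt k)) : M := (w.map l).prod

/-- Value of a vertex. -/
def rr (l : Lt k → M) (x : List (Lt k)) : M := (x.reverse.map l).prod

lemma rr_nil : rr l [] = 1 := by simp [rr]

lemma rr_cons (a : Lt k) (x : List (Lt k)) : rr l (a :: x) = rr l x * l a := by
  simp [rr]

lemma val_nil : val l [] = 1 := by simp [val]

lemma val_cons (a : Lt k) (w : List (Lt k)) : val l (a :: w) = l a * val l w := by
  simp [val]

lemma val_append (u w : List (Lt k)) : val l (u ++ w) = val l u * val l w := by
  simp [val]

include h1 h2 in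
lemma idem_e (x : M) : x * star x * (x * star x) = x * star x := by
  rw [← mul_assoc, h1]

include h2 in
/-- `x* x` and `y y*` commute. -/
lemma comm_e' (x y : M) : star x * x * (y * star y) = y * star y * (star x * x) := by
  have := h2 (star x) y
  rwa [star_star] at this

include h1 h2 hl in
/-- Absorbing one step. -/
lemma step_absorb (E : M) (x : List (Lt k)) (a : Lt k)
    (hE : E * (rr l x * star (rr l x)) = E) :
    E * rr l x * l a = E * rr l (stp x a) := by
  cases x with
  | nil => simp [stp, rr]
  | cons b x =>
    simp only [stp]
    split_ifs with h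
    · subst h
      rw [rr_cons, ← hl] at *
      rw [star_mul, star_star] at hE
      have e1 : E * (rr l x * star (l a)) * l a
          = E * (rr l x * star (l a) * (l a * star (rr l x))) * rr l x := by
        have h3 := comm_e' h2 (l a) (star (rr l x))
        rw [star_star] at h3
        have h4 := h1 (rr l x)
        calc E * (rr l x * star (l a)) * l a
            = E * (rr l x * star (rr l x) * rr l x * star (l a)) * l a := by rw [h4]
          _ = E * rr l x * (star (rr l x) * rr l x * (star (l a) * l a)) := by
              simp only [mul_assoc]
          _ = E * rr l x * (star (l a) * l a * (star (rr l x) * rr l x)) := by rw [h3]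
          _ = _ := by simp only [mul_assoc]
      rw [e1, hE]
    · rw [rr_cons, mul_assoc, rr_cons, rr_cons]

include h1 h2 hl in
lemma walk_absorb (E : M) (w x : List (Lt k))
    (hE : ∀ t ∈ vis x w, E * (rr l t * star (rr l t)) = E) :
    E * rr l x * val l w = E * rr l (pos x w) := by
  induction w generalizing x with
  | nil => simp [val]
  | cons a w ih =>
    rw [val_cons, ← mul_assoc, step_absorb h1 h2 l hl E x a (hE x (by simp)), pos_cons]
    exact ih _ (fun t ht => hE t (by simp [ht]))

include h1 h2 hl in
lemma prefix_absorb (w : List (Lt k)) (n : ℕ) :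
    ∀ t ∈ vis [] (w.take n), (val l w * star (val l w)) * (rr l t * star (rr l t))
      = val l w * star (val l w) := by
  induction n with
  | zero => intro t ht; simp at ht; subst ht; simp [rr]
  | succ n ih =>
    by_cases hn : n < w.length
    · rw [List.take_succ_eq_append_getElem hn]
      intro t ht
      rw [mem_vis_append] at ht
      rcases ht with ht | ht
      · exact ih t ht
      · set a := w[n] with ha
        set x := pos [] (w.take n) with hx
        simp only [vis_cons, vis_nil, List.mem_cons, List.not_mem_nil, or_false] at ht
        have hxm : x ∈ vis [] (w.take n) := pos_mem_vis _ _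
        rcases ht with rfl | rfl
        · exact ih x hxm
        · set E := val l w * star (val l w) with hEdef
          have hEE : E * E = E := idem_e h1 h2 _
          have hEs : star E = E := by rw [hEdef]; simp
          have hE1 : E * val l (w.take n) = E * rr l x := by
            have := walk_absorb h1 h2 l hl E (w.take n) [] ih
            rwa [rr_nil, mul_one] at this
          set z := val l (w.take (n+1)) with hz
          have hz2 : z = val l (w.take n) * l a := by
            rw [hz, List.take_succ_eq_append_getElem hn, val_append, val_cons, val_nil, mul_one]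
          have hwz : val l w = z * val l (w.drop (n+1)) := by
            rw [hz, ← val_append, List.take_append_drop]
          have hEz : E * (z * star z) = E := by
            rw [hEdef, h2, ← mul_assoc]
            congr 1
            rw [hwz, ← mul_assoc, h1]
          have hEa : E * (rr l x * l a * star (rr l x * l a)) = E := by
            have e1 : E * (z * star z) * E = E := by rw [hEz, hEE]
            have e2 : E * (z * star z) * E = (E * z) * star (E * z) := by
              rw [star_mul, hEs]; simp only [mul_assoc]
            have e3 : E * z = E * (rr l x * l a) := by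
              rw [hz2, ← mul_assoc, hE1, mul_assoc]
            have e4 : (E * (rr l x * l a)) * star (E * (rr l x * l a)) =
                E * ((rr l x * l a) * star (rr l x * l a)) * E := by
              rw [star_mul, hEs]; simp only [mul_assoc]
            have e5 : E * ((rr l x * l a) * star (rr l x * l a)) * E =
                E * ((rr l x * l a) * star (rr l x * l a)) := by
              rw [mul_assoc, hEdef, h2 (rr l x * l a), ← mul_assoc, idem_e h1 h2]
            rw [← e5, ← e4, ← e3, ← e2, e1]
          -- now the two cases for the step
          rcases x with _ | ⟨b, x⟩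
          · simp only [stp]
            simpa [rr] using hEa
          · simp only [stp]
            split_ifs with h
            · have hbx := ih (b :: x) hxm
              rw [rr_cons] at hbx
              -- `e (b :: x) * e x = e (b :: x)`
              have e6 : rr l x * l b * star (rr l x * l b) * (rr l x * star (rr l x)) =
                  rr l x * l b * star (rr l x * l b) := by
                rw [h2, ← mul_assoc, ← mul_assoc, h1]
              rw [← hbx, mul_assoc, e6]
            · rw [rr_cons l a]
              exact hEa
    · rw [List.take_of_length_le (by omega)]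
      rw [List.take_of_length_le (by omega)] at ih
      exact ih

include h1 h2 hl in
lemma val_eq_of_same_aux (w w' : List (Lt k))
    (hsub : ∀ t ∈ vis [] w, t ∈ vis [] w') (hpos : pos [] w = pos [] w') :
    val l w' = val l w' * star (val l w') * val l w := by
  set E := val l w' * star (val l w') with hE
  have hab : ∀ t ∈ vis [] w', E * (rr l t * star (rr l t)) = E := by
    have := prefix_absorb h1 h2 l hl w' w'.length
    rwa [List.take_length] at this
  have a1 := walk_absorb h1 h2 l hl E w' [] hab
  have a2 := walk_absorb h1 h2 l hl E w [] (fun t ht => hab t (hsub t ht))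
  rw [rr_nil, mul_one] at a1 a2
  rw [a2, hpos, ← a1, hE, h1]

include h1 h2 hl in
lemma val_eq_of_same (w w' : List (Lt k)) (h : Same w w') : val l w = val l w' := by
  have a1 := val_eq_of_same_aux h1 h2 l hl w w' (fun t => (h.1 t).1) h.2
  have a2 := val_eq_of_same_aux h1 h2 l hl w' w (fun t => (h.1 t).2) h.2.symm
  set s := val l w
  set s' := val l w'
  -- a1 : s' = s' s'^* s, a2 : s = s s^* s'
  calc s = s * star s * s' := a2
    _ = s * star s * (s' * star s' * s) := by rw [← a1]
    _ = s * star s * (s' * star s') * s := by simp only [mul_assoc]
    _ = s' * star s' * (s * star s) * s := by rw [h2]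
    _ = s' * star s' * s := by rw [mul_assoc, h1]
    _ = s' := a1.symm

end Abs

/-- Formal inversion of a word in the free monoid. -/
def sw (a : FreeMonoid (Lt k)) : FreeMonoid (Lt k) :=
  FreeMonoid.ofList (wi (FreeMonoid.toList a))

lemma sw_mul (a b : FreeMonoid (Lt k)) : sw (a * b) = sw b * sw a := by
  simp [sw, FreeMonoid.ofList_append]

lemma sw_sw (a : FreeMonoid (Lt k)) : sw (sw a) = a := by
  simp [sw]

lemma sw_conGen {a b : FreeMonoid (Lt k)} (h : conGen (VR k) a b) :
    conGen (VR k) (sw a) (sw b) := by
  induction (show ConGen.Rel (VR k) a b from h) with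
  | of a b hab =>
    rcases hab with ⟨u, rfl, rfl⟩ | ⟨u, v, rfl, rfl⟩
    · apply ConGen.Rel.of
      left
      refine ⟨sw b, ?_, rfl⟩
      change sw (b * sw b * b) = sw b * sw (sw b) * sw b
      rw [sw_mul, sw_mul, mul_assoc]
    · apply ConGen.Rel.of
      right
      refine ⟨v, u, ?_, ?_⟩
      · change sw (u * sw u * v * sw v) = v * sw v * u * sw u
        simp only [sw_mul, sw_sw, mul_assoc]
      · change sw (v * sw v * u * sw u) = u * sw u * v * sw v
        simp only [sw_mul, sw_sw, mul_assoc]
  | refl a => exact ConGen.Rel.refl _
  | symm h1 ih => exact ConGen.Rel.symm (ih h1)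
  | trans h1 h2 ih1 ih2 => exact ConGen.Rel.trans (ih1 h1) (ih2 h2)
  | mul h1 h2 ih1 ih2 =>
    rw [sw_mul, sw_mul]
    exact ConGen.Rel.mul (ih2 h2) (ih1 h1)

/-- The free inverse monoid. -/
abbrev FM (k : ℕ) := (conGen (VR k)).Quotient

/-- Inversion on the free inverse monoid. -/
def fstar : FM k → FM k :=
  Quotient.map' sw (fun _ _ h => sw_conGen h)

instance : StarMul (FM k) where
  star := fstar
  star_involutive := by
    intro x
    induction x using Con.induction_on with
    | H a =>
      change ((sw (sw a) : FreeMonoid (Lt k)) : FM k) = _
      rw [sw_sw]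
  star_mul := by
    intro x y
    induction x using Con.induction_on with
    | H a =>
      induction y using Con.induction_on with
      | H b =>
        change ((sw (a * b) : FreeMonoid (Lt k)) : FM k) = ((sw b : FreeMonoid (Lt k)) : FM k) * ((sw a : FreeMonoid (Lt k)) : FM k)
        rw [sw_mul]
        rfl

lemma fm_h1 (x : FM k) : x * star x * x = x := by
  induction x using Con.induction_on with
  | H a =>
    change ((a * sw a * a : FreeMonoid (Lt k)) : FM k) = (a : FM k)
    rw [Con.eq]
    apply ConGen.Rel.of
    left
    exact ⟨a, rfl, rfl⟩

lemma fm_h2 (x y : FM k) : x * star x * (y * star y) = y * star y * (x * star x) := by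
  induction x using Con.induction_on with
  | H a =>
    induction y using Con.induction_on with
    | H b =>
      change ((a * sw a * (b * sw b) : FreeMonoid (Lt k)) : FM k) = ((b * sw b * (a * sw a) : FreeMonoid (Lt k)) : FM k)
      rw [Con.eq]
      apply ConGen.Rel.of
      right
      exact ⟨a, b, by simp only [mul_assoc]; rfl, by simp only [mul_assoc]; rfl⟩

/-- Letters in the free inverse monoid. -/
def flet (a : Lt k) : FM k := ((FreeMonoid.of a : FreeMonoid (Lt k)) : FM k)

lemma flet_star (a : Lt k) : star (flet a) = flet (iv a) := rfl

lemma val_flet (w : List (Lt k)) :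
    val flet w = ((FreeMonoid.ofList w : FreeMonoid (Lt k)) : FM k) := by
  induction w with
  | nil => rfl
  | cons a w ih =>
    rw [val_cons, ih, FreeMonoid.ofList_cons]
    rfl

/-- **Munn's theorem.** -/
theorem conGen_iff_same (w w' : List (Lt k)) :
    conGen (VR k) (FreeMonoid.ofList w) (FreeMonoid.ofList w') ↔ Same w w' := by
  constructor
  · exact same_of_conGen
  · intro h
    rw [← Con.eq, ← val_flet, ← val_flet]
    exact val_eq_of_same fm_h1 fm_h2 flet flet_star w w' h

end Pool.Agent.FIM
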