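import Mathlib
import Pool.Agent.MP_61c0e4_al.Munn

set_option autoImplicit false
set_option linter.unusedSimpArgs false
set_option linter.unusedSectionVars false

/-! Runs of automata, walks in trees, and shortening of covering walks. -/

namespace Pool.Agent.FIM

open Relation

variable {k : ℕ} {Q : Type*}

/-- Vertices. -/
abbrev Vx (k : ℕ) := List (Lt k)

/-- Runs of an automaton. -/
inductive Run (E : Set (Q × Lt k × Q)) : Q → List (Lt k) → Q → Prop
  | nil (p : Q) : Run E p [] p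
  | cons {p : Q} {a : Lt k} {q : Q} {w : List (Lt k)} {r : Q} :
      (p, a, q) ∈ E → Run E q w r → Run E p (a :: w) r

lemma Run.append {E : Set (Q × Lt k × Q)} {p q r : Q} {u w : List (Lt k)}
    (h1 : Run E p u q) (h2 : Run E q w r) : Run E p (u ++ w) r := by
  induction h1 with
  | nil p => simpa using h2
  | cons he _ ih => exact Run.cons he (ih h2)

lemma Run.split {E : Set (Q × Lt k × Q)} {u : List (Lt k)} : ∀ {w : List (Lt k)} {p r : Q},
    Run E p (u ++ w) r → ∃ q, Run E p u q ∧ Run E q w r := by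
  induction u with
  | nil => intro w p r h; exact ⟨p, Run.nil p, by simpa using h⟩
  | cons a u ih =>
    intro w p r h
    cases h with
    | cons he h =>
      obtain ⟨q, h1, h2⟩ := ih h
      exact ⟨q, Run.cons he h1, h2⟩

/-- Edges of the configuration graph over a set of vertices. -/
def Edge (E : Set (Q × Lt k × Q)) (T : Set (Vx k)) (c d : Q × Vx k) : Prop :=
  ∃ a, (c.1, a, d.1) ∈ E ∧ d.2 = stp c.2 a ∧ c.2 ∈ T ∧ d.2 ∈ T

/-- Reachability in the configuration graph. -/
abbrev Rch (E : Set (Q × Lt k × Q)) (T : Set (Vx k)) : Q × Vx k → Q × Vx k → Prop :=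
  ReflTransGen (Edge E T)

lemma Edge.mono {E : Set (Q × Lt k × Q)} {S T : Set (Vx k)} (h : S ⊆ T) {c d : Q × Vx k}
    (hc : Edge E S c d) : Edge E T c d := by
  obtain ⟨a, h1, h2, h3, h4⟩ := hc
  exact ⟨a, h1, h2, h h3, h h4⟩

lemma Rch.mono {E : Set (Q × Lt k × Q)} {S T : Set (Vx k)} (h : S ⊆ T) {c d : Q × Vx k}
    (hc : Rch E S c d) : Rch E T c d :=
  ReflTransGen.mono (fun _ _ => Edge.mono h) _ _ hc

/-- Nontrivial reachability forces the start to be in the region. -/
lemma Rch.left {E : Set (Q × Lt k × Q)} {S : Set (Vx k)} {c d : Q × Vx k}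
    (hc : Rch E S c d) : c = d ∨ c.2 ∈ S := by
  rcases ReflTransGen.cases_head hc with h | ⟨b, h, _⟩
  · exact Or.inl h
  · obtain ⟨a, _, _, h3, _⟩ := h
    exact Or.inr h3

lemma Rch.right {E : Set (Q × Lt k × Q)} {S : Set (Vx k)} {c d : Q × Vx k}
    (hc : Rch E S c d) : c = d ∨ d.2 ∈ S := by
  rcases ReflTransGen.cases_tail hc with h | ⟨b, _, h⟩
  · exact Or.inl h.symm
  · obtain ⟨a, _, _, _, h3⟩ := h
    exact Or.inr h3

/-- A run gives an ordered list of configurations. -/
lemma exists_configs {E : Set (Q × Lt k × Q)} {T : Set (Vx k)} {p r : Q} {w : List (Lt k)}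
    (h : Run E p w r) : ∀ x : Vx k, (∀ t ∈ vis x w, t ∈ T) →
      ∃ l : List (Q × Vx k), (p, x) ∈ l ∧ (r, pos x w) ∈ l ∧ l.Pairwise (Rch E T) ∧
        l.map Prod.snd = vis x w ∧ ∀ c ∈ l, Rch E T (p, x) c ∧ Rch E T c (r, pos x w) := by
  induction h with
  | nil p =>
    intro x hx
    exact ⟨[(p, x)], by simp, by simp, by simp, by simp, by
      intro c hc
      simp at hc
      subst hc
      exact ⟨ReflTransGen.refl, ReflTransGen.refl⟩⟩
  | @cons p a q w r he h ih =>
    intro x hx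
    obtain ⟨l, h1, h2, h3, h4, h5⟩ := ih (stp x a) (fun t ht => hx t (by simp [ht]))
    have hstep : Rch E T (p, x) (q, stp x a) :=
      ReflTransGen.single ⟨a, he, rfl, hx x (by simp), hx _ (by simp [start_mem_vis])⟩
    refine ⟨(p, x) :: l, by simp, by simp [h2], ?_, by simp [h4], ?_⟩
    · rw [List.pairwise_cons]
      exact ⟨fun c hc => hstep.trans (h5 c hc).1, h3⟩
    · intro c hc
      rw [List.mem_cons] at hc
      rcases hc with rfl | hc
      · exact ⟨ReflTransGen.refl, hstep.trans (h5 _ h1).2⟩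
      · exact ⟨hstep.trans (h5 c hc).1, (h5 c hc).2⟩

/-- Reachability gives a run. -/
lemma run_of_rch {E : Set (Q × Lt k × Q)} {T : Set (Vx k)} {c d : Q × Vx k}
    (h : Rch E T c d) (hc : c.2 ∈ T) :
    ∃ w, Run E c.1 w d.1 ∧ pos c.2 w = d.2 ∧ ∀ t ∈ vis c.2 w, t ∈ T := by
  induction h using ReflTransGen.head_induction_on with
  | refl => exact ⟨[], Run.nil _, rfl, by simpa using hc⟩
  | @head c b hcb _ ih =>
    obtain ⟨a, h1, h2, h3, h4⟩ := hcb
    obtain ⟨w, hw1, hw2, hw3⟩ := ih h4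
    refine ⟨a :: w, Run.cons h1 hw1, ?_, ?_⟩
    · rw [pos_cons, ← h2, hw2]
    · intro t ht
      rw [vis_cons, List.mem_cons] at ht
      rcases ht with rfl | ht
      · exact hc
      · rw [← h2] at ht
        exact hw3 t ht

/-- There is a walk from `(s, [])` to `(f, g)` visiting exactly `T`. -/
def Cov (E : Set (Q × Lt k × Q)) (T : Set (Vx k)) (s : Q) (g : Vx k) (f : Q) : Prop :=
  ∃ w, Run E s w f ∧ pos [] w = g ∧ ∀ t, t ∈ vis [] w ↔ t ∈ T

/-- Preorder reformulation of `Cov`. -/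
def AccP (E : Set (Q × Lt k × Q)) (T : Set (Vx k)) (s : Q) (g : Vx k) (f : Q) : Prop :=
  ∃ P : Set (Q × Vx k), (∀ c ∈ P, c.2 ∈ T) ∧ (∀ t ∈ T, ∃ q, (q, t) ∈ P) ∧
    (s, []) ∈ P ∧ (f, g) ∈ P ∧ (∀ c ∈ P, ∀ d ∈ P, Rch E T c d ∨ Rch E T d c) ∧
    ∀ c ∈ P, Rch E T (s, []) c ∧ Rch E T c (f, g)

lemma accP_of_cov {E : Set (Q × Lt k × Q)} {T : Set (Vx k)} {s : Q} {g : Vx k} {f : Q}
    (h : Cov E T s g f) : AccP E T s g f := by
  obtain ⟨w, h1, h2, h3⟩ := h
  obtain ⟨l, l1, l2, l3, l4, l5⟩ := exists_configs (T := T) h1 [] (fun t ht => (h3 t).1 ht)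
  rw [h2] at l2 l5
  refine ⟨{c | c ∈ l}, ?_, ?_, l1, l2, ?_, l5⟩
  · intro c hc
    rw [← h3, ← l4]
    exact List.mem_map_of_mem hc
  · intro t ht
    rw [← h3, ← l4, List.mem_map] at ht
    obtain ⟨⟨q, t'⟩, hc, rfl⟩ := ht
    exact ⟨q, hc⟩
  · intro c hc d hd
    have : Std.Symm (fun c d => Rch E T c d ∨ Rch E T d c) := ⟨fun _ _ h => h.symm⟩
    have := List.Pairwise.forall_of_forall (R := fun c d => Rch E T c d ∨ Rch E T d c)
      (l := l) (fun x _ => Or.inl ReflTransGen.refl)
      (l3.imp (fun h => Or.inl h))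
    exact this hc hd

lemma exists_min {α : Type*} {R : α → α → Prop} (hr : ∀ a, R a a)
    (ht : ∀ a b c, R a b → R b c → R a c) (l : List α) (hl : l ≠ [])
    (hc : ∀ c ∈ l, ∀ d ∈ l, R c d ∨ R d c) : ∃ m ∈ l, ∀ c ∈ l, R m c := by
  induction l with
  | nil => exact absurd rfl hl
  | cons a l ih =>
    by_cases h : l = []
    · subst h
      exact ⟨a, by simp, by simpa using hr a⟩
    · obtain ⟨m, hm, hm'⟩ := ih h (fun c hc' d hd => hc c (by simp [hc']) d (by simp [hd]))
      rcases hc a (by simp) m (by simp [hm]) with h1 | h1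
      · refine ⟨a, by simp, ?_⟩
        intro c hc'
        rw [List.mem_cons] at hc'
        rcases hc' with rfl | hc'
        · exact hr _
        · exact ht _ _ _ h1 (hm' c hc')
      · refine ⟨m, by simp [hm], ?_⟩
        intro c hc'
        rw [List.mem_cons] at hc'
        rcases hc' with rfl | hc'
        · exact h1
        · exact hm' c hc'

/-- A walk through a list of pairwise comparable configurations. -/
lemma walk_through [DecidableEq Q] {E : Set (Q × Lt k × Q)} {T : Set (Vx k)} (n : ℕ) :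
    ∀ (l : List (Q × Vx k)), l.length = n → (∀ c ∈ l, c.2 ∈ T) →
      (∀ c ∈ l, ∀ d ∈ l, Rch E T c d ∨ Rch E T d c) →
      ∀ a b : Q × Vx k, a.2 ∈ T → Rch E T a b → (∀ c ∈ l, Rch E T a c ∧ Rch E T c b) →
        ∃ w, Run E a.1 w b.1 ∧ pos a.2 w = b.2 ∧ (∀ t ∈ vis a.2 w, t ∈ T) ∧
          ∀ c ∈ l, c.2 ∈ vis a.2 w := by
  induction n with
  | zero =>
    intro l hl hT hc a b ha hab h
    rw [List.length_eq_zero_iff] at hl
    subst hl
    obtain ⟨w, h1, h2, h3⟩ := run_of_rch hab ha
    exact ⟨w, h1, h2, h3, by simp⟩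
  | succ n ih =>
    intro l hl hT hc a b ha hab h
    obtain ⟨m, hm, hm'⟩ := exists_min (R := Rch E T) (fun _ => ReflTransGen.refl)
      (fun _ _ _ => ReflTransGen.trans) l (by rintro rfl; simp at hl) hc
    obtain ⟨w1, h1, h2, h3⟩ := run_of_rch (h m hm).1 ha
    have hlen : (l.erase m).length = n := by
      rw [List.length_erase_of_mem hm, hl]; rfl
    have hsub : ∀ c ∈ l.erase m, c ∈ l := fun c hc => List.mem_of_mem_erase hc
    obtain ⟨w2, g1, g2, g3, g4⟩ := ih (l.erase m) hlen (fun c hc => hT c (hsub c hc))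
      (fun c hc' d hd => hc c (hsub c hc') d (hsub d hd)) m b (hT m hm) (h m hm).2
      (fun c hc' => ⟨hm' c (hsub c hc'), (h c (hsub c hc')).2⟩)
    refine ⟨w1 ++ w2, h1.append g1, by rw [pos_append, h2, g2], ?_, ?_⟩
    · intro t ht
      rw [mem_vis_append, h2] at ht
      rcases ht with ht | ht
      · exact h3 t ht
      · exact g3 t ht
    · intro c hc'
      rw [mem_vis_append, h2]
      by_cases hcm : c = m
      · subst hcm
        left
        rw [← h2]
        exact pos_mem_vis _ _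
      · right
        exact g4 c ((List.mem_erase_of_ne hcm).2 hc')

lemma cov_of_accP {E : Set (Q × Lt k × Q)} {T : Set (Vx k)} (hT : T.Finite)
    {s : Q} {g : Vx k} {f : Q} (h : AccP E T s g f) : Cov E T s g f := by
  classical
  obtain ⟨P, p1, p2, p3, p4, p5, p6⟩ := h
  have : Nonempty Q := ⟨s⟩
  choose! φ hφ using p2
  obtain ⟨w, w1, w2, w3, w4⟩ := walk_through (E := E) (T := T) _
    (hT.toFinset.toList.map (fun t => (φ t, t))) rfl
    (by
      intro c hc
      simp only [List.mem_map, Finset.mem_toList, Set.Finite.mem_toFinset] at hc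
      obtain ⟨t, ht, rfl⟩ := hc
      exact ht)
    (by
      intro c hc d hd
      simp only [List.mem_map, Finset.mem_toList, Set.Finite.mem_toFinset] at hc hd
      obtain ⟨t, ht, rfl⟩ := hc
      obtain ⟨t', ht', rfl⟩ := hd
      exact p5 _ (hφ t ht) _ (hφ t' ht'))
    (s, []) (f, g) (p1 _ p3) (p6 _ p4).1
    (by
      intro c hc
      simp only [List.mem_map, Finset.mem_toList, Set.Finite.mem_toFinset] at hc
      obtain ⟨t, ht, rfl⟩ := hc
      exact p6 _ (hφ t ht))
  refine ⟨w, w1, w2, fun t => ⟨w3 t, fun ht => ?_⟩⟩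
  exact w4 (φ t, t) (by
    simp only [List.mem_map, Finset.mem_toList, Set.Finite.mem_toFinset]
    exact ⟨t, ht, rfl⟩)

/-- Shortening of covering runs. -/
lemma short_run [Fintype Q] {E : Set (Q × Lt k × Q)} {s f : Q} {w : List (Lt k)}
    (h : Run E s w f) (S : Finset (Vx k)) (hS : ∀ t ∈ vis [] w, t ∈ S) :
    ∃ w', Run E s w' f ∧ Same w w' ∧ w'.length ≤ Fintype.card Q * (S.card * (S.card + 1)) := by
  classical
  -- choose a shortest one
  have hex : ∃ n, ∃ w', w'.length = n ∧ Run E s w' f ∧ Same w w' :=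
    ⟨w.length, w, rfl, h, ⟨fun _ => Iff.rfl, rfl⟩⟩
  obtain ⟨w', hlen, hrun, hsame⟩ := Nat.find_spec hex
  have hmin : ∀ u, Run E s u f → Same w u → w'.length ≤ u.length := by
    intro u h1 h2
    rw [hlen]
    exact Nat.find_min' hex ⟨u, rfl, h1, h2⟩
  refine ⟨w', hrun, hsame, ?_⟩
  by_contra hcon
  push Not at hcon
  have hS' : ∀ t ∈ vis [] w', t ∈ S := fun t ht => hS t ((hsame.1 t).2 ht)
  -- states along the run
  have hst : ∀ i, ∃ q, Run E s (w'.take i) q ∧ Run E q (w'.drop i) f := by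
    intro i
    apply Run.split
    rw [List.take_append_drop]
    exact hrun
  choose σ hσ1 hσ2 using hst
  have hvt : ∀ i, ∀ t ∈ vis [] (w'.take i), t ∈ vis [] w' := by
    intro i t ht
    rw [← List.take_append_drop i w', mem_vis_append]
    exact Or.inl ht
  let cnt : ℕ → ℕ := fun i => (vis [] (w'.take i)).toFinset.card
  have hcnt : ∀ i, cnt i < S.card + 1 := by
    intro i
    apply Nat.lt_succ_of_le
    apply Finset.card_le_card
    intro t ht
    rw [List.mem_toFinset] at ht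
    exact hS' t (hvt i t ht)
  let Φ : Fin (w'.length + 1) → Q × S × Fin (S.card + 1) := fun i =>
    (σ i, ⟨pos [] (w'.take i), hS' _ (hvt i _ (pos_mem_vis _ _))⟩, ⟨cnt i, hcnt i⟩)
  have hcard : Fintype.card (Q × S × Fin (S.card + 1)) < Fintype.card (Fin (w'.length + 1)) := by
    simp only [Fintype.card_prod, Fintype.card_coe, Fintype.card_fin]
    omega
  obtain ⟨i, j, hij, hΦ⟩ := Fintype.exists_ne_map_eq_of_card_lt Φ hcard
  wlog hlt : (i : ℕ) < j generalizing i j
  · exact this j i hij.symm hΦ.symm (by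
      have : (i : ℕ) ≠ j := fun h => hij (Fin.ext h)
      omega)
  simp only [Φ, Prod.mk.injEq, Subtype.mk.injEq, Fin.mk.injEq] at hΦ
  obtain ⟨e1, e2, e3⟩ := hΦ
  have hsub : (vis [] (w'.take i)).toFinset ⊆ (vis [] (w'.take j)).toFinset := by
    intro t ht
    rw [List.mem_toFinset] at ht ⊢
    have : w'.take j = w'.take i ++ (w'.take j).drop i := by
      conv_lhs => rw [← List.take_append_drop i (w'.take j)]
      rw [List.take_take, min_eq_left hlt.le]
    rw [this, mem_vis_append]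
    exact Or.inl ht
  have heq := Finset.eq_of_subset_of_card_le hsub (le_of_eq e3.symm)
  have heq' : ∀ t, t ∈ vis [] (w'.take i) ↔ t ∈ vis [] (w'.take j) := by
    intro t
    rw [← List.mem_toFinset, ← List.mem_toFinset, heq]
  have hnew := hmin (w'.take i ++ w'.drop j)
    ((hσ1 i).append (e1 ▸ hσ2 j)) (by
      constructor
      · intro t
        rw [hsame.1 t, mem_vis_append, heq', e2, ← mem_vis_append, List.take_append_drop]
      · rw [hsame.2, pos_append, e2, ← pos_append, List.take_append_drop])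
  rw [List.length_append, List.length_take, List.length_drop] at hnew
  have := i.2
  have := j.2
  omega

end Pool.Agent.FIM
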