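import Mathlib
import Pool.Agent.MP_61c0e4_al.Walk

set_option autoImplicit false
set_option linter.unusedSimpArgs false
set_option linter.unusedSectionVars false

/-! Types of subtrees and the replacement lemma. -/

namespace Pool.Agent.FIM

open Relation

variable {k : ℕ} {Q : Type*}

/-- Type of a pair of configurations. -/
abbrev Tup (Q : Type*) := ((Set Q × Set Q) × (Set Q × Set Q)) × (Prop × Prop) × (Prop × Prop)

/-- Type of a region. -/
abbrev Full (Q : Type*) := Set (Q × Q) × Set (Set (Tup Q))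

/-- Connections of a configuration with the base vertex. -/
def sig (E : Set (Q × Lt k × Q)) (D : Set (Vx k)) (v : Vx k) (c : Q × Vx k) : Set Q × Set Q :=
  ({p | Rch E D (p, v) c}, {p | Rch E D c (p, v)})

/-- Data of a pair of configurations. -/
def tup (E : Set (Q × Lt k × Q)) (D : Set (Vx k)) (v : Vx k) (e : Set (Q × Vx k))
    (c d : Q × Vx k) : Tup Q :=
  ((sig E D v c, sig E D v d), (Rch E D c d, Rch E D d c), (c ∈ e, d ∈ e))

/-- Data of a set of configurations. -/
def ty (E : Set (Q × Lt k × Q)) (D : Set (Vx k)) (v : Vx k) (e P : Set (Q × Vx k)) :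
    Set (Tup Q) :=
  {t | ∃ c ∈ P, ∃ d ∈ P, t = tup E D v e c d}

/-- Data of a region. -/
def full (E : Set (Q × Lt k × Q)) (D : Set (Vx k)) (v : Vx k) (e : Set (Q × Vx k)) : Full Q :=
  ({pq | Rch E D (pq.1, v) (pq.2, v)},
    {τ | ∃ P : Set (Q × Vx k), (∀ c ∈ P, c.2 ∈ D) ∧ (∀ t ∈ D, ∃ q, (q, t) ∈ P) ∧ e ⊆ P ∧
      τ = ty E D v e P})

section Decomp

variable {E : Set (Q × Lt k × Q)} {C D : Set (Vx k)} {v : Vx k}
  (hCD : ∀ t ∈ C, t ∈ D → t = v)
  (hE : ∀ c d, Edge E (C ∪ D) c d → Edge E C c d ∨ Edge E D c d)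

/-- Local reachability on either side. -/
def Loc (E : Set (Q × Lt k × Q)) (C D : Set (Vx k)) (c d : Q × Vx k) : Prop :=
  Rch E C c d ∨ Rch E D c d

lemma Loc.rch {c d : Q × Vx k} (h : Loc E C D c d) : Rch E (C ∪ D) c d := by
  rcases h with h | h
  · exact h.mono Set.subset_union_left
  · exact h.mono Set.subset_union_right

include hCD hE in
/-- Decomposition of a path in a glued region. -/
lemma decomp {c d : Q × Vx k} (h : Rch E (C ∪ D) c d) :
    Loc E C D c d ∨ ∃ p q, Loc E C D c (p, v) ∧ Rch E (C ∪ D) (p, v) (q, v) ∧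
      Loc E C D (q, v) d := by
  induction h with
  | refl => exact Or.inl (Or.inl ReflTransGen.refl)
  | @tail d d' _ hstep ih =>
    rcases ih with (h | h) | ⟨p, q, h1, h2, h3⟩
    · rcases hE _ _ hstep with hs | hs
      · exact Or.inl (Or.inl (h.tail hs))
      · rcases h.right with rfl | hd
        · exact Or.inl (Or.inr (ReflTransGen.single hs))
        · have hd2 : d.2 ∈ D := by obtain ⟨_, _, _, h3, _⟩ := hs; exact h3
          have hv := hCD _ hd hd2
          obtain ⟨q, y⟩ := d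
          simp only at hv
          subst hv
          exact Or.inr ⟨q, q, Or.inl h, ReflTransGen.refl, Or.inr (ReflTransGen.single hs)⟩
    · rcases hE _ _ hstep with hs | hs
      · rcases h.right with rfl | hd
        · exact Or.inl (Or.inl (ReflTransGen.single hs))
        · have hd2 : d.2 ∈ C := by obtain ⟨_, _, _, h3, _⟩ := hs; exact h3
          have hv := hCD _ hd2 hd
          obtain ⟨q, y⟩ := d
          simp only at hv
          subst hv
          exact Or.inr ⟨q, q, Or.inr h, ReflTransGen.refl, Or.inl (ReflTransGen.single hs)⟩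
      · exact Or.inl (Or.inr (h.tail hs))
    · right
      rcases h3 with h3 | h3
      · rcases hE _ _ hstep with hs | hs
        · exact ⟨p, q, h1, h2, Or.inl (h3.tail hs)⟩
        · rcases h3.right with hd | hd
          · subst hd
            exact ⟨p, q, h1, h2, Or.inr (ReflTransGen.single hs)⟩
          · have hd2 : d.2 ∈ D := by obtain ⟨_, _, _, h3, _⟩ := hs; exact h3
            have hv := hCD _ hd hd2
            obtain ⟨q', y⟩ := d
            simp only at hv
            subst hv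
            exact ⟨p, q', h1, h2.trans (h3.mono Set.subset_union_left),
              Or.inr (ReflTransGen.single hs)⟩
      · rcases hE _ _ hstep with hs | hs
        · rcases h3.right with hd | hd
          · subst hd
            exact ⟨p, q, h1, h2, Or.inl (ReflTransGen.single hs)⟩
          · have hd2 : d.2 ∈ C := by obtain ⟨_, _, _, h3, _⟩ := hs; exact h3
            have hv := hCD _ hd2 hd
            obtain ⟨q', y⟩ := d
            simp only at hv
            subst hv
            exact ⟨p, q', h1, h2.trans (h3.mono Set.subset_union_right),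
              Or.inl (ReflTransGen.single hs)⟩
        · exact ⟨p, q, h1, h2, Or.inr (h3.tail hs)⟩

include hCD hE in
/-- Reachability between configurations at the base vertex. -/
lemma decomp_base {p q : Q} (h : Rch E (C ∪ D) (p, v) (q, v)) :
    ReflTransGen (fun p q : Q => Loc E C D (p, v) (q, v)) p q := by
  suffices H : ∀ d : Q × Vx k, Rch E (C ∪ D) (p, v) d →
      ∃ q, ReflTransGen (fun p q : Q => Loc E C D (p, v) (q, v)) p q ∧ Loc E C D (q, v) d by
    obtain ⟨q', h1, h2⟩ := H _ h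
    exact h1.tail h2
  intro d hd
  induction hd with
  | refl => exact ⟨p, ReflTransGen.refl, Or.inl ReflTransGen.refl⟩
  | @tail d d' _ hstep ih =>
    obtain ⟨q', h1, h3⟩ := ih
    rcases h3 with h3 | h3
    · rcases hE _ _ hstep with hs | hs
      · exact ⟨q', h1, Or.inl (h3.tail hs)⟩
      · rcases h3.right with hd | hd
        · subst hd
          exact ⟨q', h1, Or.inr (ReflTransGen.single hs)⟩
        · have hd2 : d.2 ∈ D := by obtain ⟨_, _, _, h3, _⟩ := hs; exact h3
          have hv := hCD _ hd hd2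
          obtain ⟨q'', y⟩ := d
          simp only at hv
          subst hv
          exact ⟨q'', h1.tail (Or.inl h3), Or.inr (ReflTransGen.single hs)⟩
    · rcases hE _ _ hstep with hs | hs
      · rcases h3.right with hd | hd
        · subst hd
          exact ⟨q', h1, Or.inl (ReflTransGen.single hs)⟩
        · have hd2 : d.2 ∈ C := by obtain ⟨_, _, _, h3, _⟩ := hs; exact h3
          have hv := hCD _ hd2 hd
          obtain ⟨q'', y⟩ := d
          simp only at hv
          subst hv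
          exact ⟨q'', h1.tail (Or.inr h3), Or.inl (ReflTransGen.single hs)⟩
      · exact ⟨q', h1, Or.inr (h3.tail hs)⟩

/-- A configuration outside `D` is locally connected to the base only through `C`. -/
lemma loc_to_base_C {c : Q × Vx k} (hc : c.2 ∉ D) {p : Q} (h : Loc E C D c (p, v)) :
    Rch E C c (p, v) := by
  rcases h with h | h
  · exact h
  · rcases h.left with h' | h'
    · rw [h']
    · exact absurd h' hc

lemma loc_from_base_C {c : Q × Vx k} (hc : c.2 ∉ D) {p : Q} (h : Loc E C D (p, v) c) :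
    Rch E C (p, v) c := by
  rcases h with h | h
  · exact h
  · rcases h.right with h' | h'
    · rw [h']
    · exact absurd h' hc

include hCD in
lemma loc_to_base_D {c : Q × Vx k} (hc : c.2 ∈ D) {p : Q} (h : Loc E C D c (p, v)) :
    ∃ p', Rch E D c (p', v) ∧ Rch E (C ∪ D) (p', v) (p, v) := by
  rcases h with h | h
  · rcases h.left with h' | h'
    · exact ⟨p, by rw [h'], ReflTransGen.refl⟩
    · have hv := hCD _ h' hc
      obtain ⟨q, y⟩ := c
      simp only at hv
      subst hv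
      exact ⟨q, ReflTransGen.refl, h.mono Set.subset_union_left⟩
  · exact ⟨p, h, ReflTransGen.refl⟩

include hCD in
lemma loc_from_base_D {c : Q × Vx k} (hc : c.2 ∈ D) {p : Q} (h : Loc E C D (p, v) c) :
    ∃ p', Rch E (C ∪ D) (p, v) (p', v) ∧ Rch E D (p', v) c := by
  rcases h with h | h
  · rcases h.right with h' | h'
    · exact ⟨p, ReflTransGen.refl, by rw [h']⟩
    · have hv := hCD _ h' hc
      obtain ⟨q, y⟩ := c
      simp only at hv
      subst hv
      exact ⟨q, h.mono Set.subset_union_left, ReflTransGen.refl⟩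
  · exact ⟨p, ReflTransGen.refl, h⟩

include hCD hE in
lemma rch_CC {c d : Q × Vx k} (hc : c.2 ∉ D) (hd : d.2 ∉ D) (h : Rch E (C ∪ D) c d) :
    Rch E C c d ∨ ∃ p q, Rch E C c (p, v) ∧ Rch E (C ∪ D) (p, v) (q, v) ∧ Rch E C (q, v) d := by
  rcases decomp hCD hE h with (h | h) | ⟨p, q, h1, h2, h3⟩
  · exact Or.inl h
  · rcases h.left with h' | h'
    · left; rw [h']
    · exact absurd h' hc
  · exact Or.inr ⟨p, q, loc_to_base_C hc h1, h2, loc_from_base_C hd h3⟩

include hCD hE in
lemma rch_CD {c d : Q × Vx k} (hc : c.2 ∉ D) (hd : d.2 ∈ D) (h : Rch E (C ∪ D) c d) :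
    ∃ p q, Rch E C c (p, v) ∧ Rch E (C ∪ D) (p, v) (q, v) ∧ Rch E D (q, v) d := by
  rcases decomp hCD hE h with (h | h) | ⟨p, q, h1, h2, h3⟩
  · rcases h.right with h' | h'
    · rw [h'] at hc; exact absurd hd hc
    · have hv := hCD _ h' hd
      obtain ⟨q, y⟩ := d
      simp only at hv
      subst hv
      exact ⟨q, q, h, ReflTransGen.refl, ReflTransGen.refl⟩
  · rcases h.left with h' | h'
    · rw [h'] at hc; exact absurd hd hc
    · exact absurd h' hc
  · obtain ⟨q', h4, h5⟩ := loc_from_base_D hCD hd h3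
    exact ⟨p, q', loc_to_base_C hc h1, h2.trans h4, h5⟩

include hCD hE in
lemma rch_DC {c d : Q × Vx k} (hc : c.2 ∈ D) (hd : d.2 ∉ D) (h : Rch E (C ∪ D) c d) :
    ∃ p q, Rch E D c (p, v) ∧ Rch E (C ∪ D) (p, v) (q, v) ∧ Rch E C (q, v) d := by
  rcases decomp hCD hE h with (h | h) | ⟨p, q, h1, h2, h3⟩
  · rcases h.left with h' | h'
    · rw [h'] at hc; exact absurd hc hd
    · have hv := hCD _ h' hc
      obtain ⟨q, y⟩ := c
      simp only at hv
      subst hv
      exact ⟨q, q, ReflTransGen.refl, ReflTransGen.refl, h⟩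
  · rcases h.right with h' | h'
    · rw [h'] at hc; exact absurd hc hd
    · exact absurd h' hd
  · obtain ⟨p', h4, h5⟩ := loc_to_base_D hCD hc h1
    exact ⟨p', q, h4, h5.trans h2, loc_from_base_C hd h3⟩

include hCD hE in
lemma rch_DD {c d : Q × Vx k} (hc : c.2 ∈ D) (hd : d.2 ∈ D) (h : Rch E (C ∪ D) c d) :
    Rch E D c d ∨ ∃ p q, Rch E D c (p, v) ∧ Rch E (C ∪ D) (p, v) (q, v) ∧ Rch E D (q, v) d := by
  rcases decomp hCD hE h with (h | h) | ⟨p, q, h1, h2, h3⟩
  · rcases h.left with h' | h'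
    · left; rw [h']
    · have hv := hCD _ h' hc
      rcases h.right with h'' | h''
      · left; rw [h'']
      · have hv' := hCD _ h'' hd
        obtain ⟨q, y⟩ := c
        obtain ⟨q', y'⟩ := d
        simp only at hv hv'
        subst hv
        subst hv'
        exact Or.inr ⟨q, q', ReflTransGen.refl, h.mono Set.subset_union_left, ReflTransGen.refl⟩
  · exact Or.inl h
  · obtain ⟨p', h4, h5⟩ := loc_to_base_D hCD hc h1
    obtain ⟨q', h6, h7⟩ := loc_from_base_D hCD hd h3
    exact Or.inr ⟨p', q', h4, (h5.trans h2).trans h6, h7⟩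

end Decomp

/-- **Replacement lemma.** -/
lemma replace {E : Set (Q × Lt k × Q)} {C D D' : Set (Vx k)} {v : Vx k}
    (hnC : [] ∈ C) (hnv : ([] : Vx k) ≠ v) (hvD : v ∈ D) (hvD' : v ∈ D')
    (hCD : ∀ t ∈ C, t ∈ D → t = v) (hCD' : ∀ t ∈ C, t ∈ D' → t = v)
    (hE : ∀ c d, Edge E (C ∪ D) c d → Edge E C c d ∨ Edge E D c d)
    {s f : Q} {g g' : Vx k} {e e' : Set (Q × Vx k)}
    (hends : (g = g' ∧ g ∉ D ∧ g' ∈ C ∧ e = ∅) ∨ (g ∈ D ∧ g' ∈ D' ∧ e = {(f, g)} ∧ e' = {(f, g')}))
    (hfull : full E D v e = full E D' v e')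
    (h : AccP E (C ∪ D) s g f) : AccP E (C ∪ D') s g' f := by
  obtain ⟨P, p1, p2, p3, p4, p5, p6⟩ := h
  have hnD : ([] : Vx k) ∉ D := fun h => hnv (hCD _ hnC h)
  -- the parts of `P`
  set PC : Set (Q × Vx k) := {c | c ∈ P ∧ c.2 ∉ D} with hPC
  set PD : Set (Q × Vx k) := {c | c ∈ P ∧ c.2 ∈ D} with hPD
  have hPCC : ∀ c ∈ PC, c.2 ∈ C := by
    rintro c ⟨hc, hc'⟩
    rcases p1 c hc with h | h
    · exact h
    · exact absurd h hc'
  have hPCD' : ∀ c ∈ PC, c.2 ∉ D' := by
    intro c hc h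
    have := hCD' _ (hPCC c hc) h
    exact hc.2 (this ▸ hvD)
  have heP : e ⊆ PD := by
    rcases hends with ⟨_, _, _, rfl⟩ | ⟨h1, h2, rfl, _⟩
    · exact Set.empty_subset _
    · rw [Set.singleton_subset_iff]
      exact ⟨p4, h1⟩
  have hmem : ty E D v e PD ∈ (full E D v e).2 := by
    refine ⟨PD, fun c hc => hc.2, ?_, heP, rfl⟩
    intro t ht
    obtain ⟨q, hq⟩ := p2 t (Or.inr ht)
    exact ⟨q, hq, ht⟩
  rw [hfull] at hmem
  obtain ⟨PD', d1, d2, d3, d4⟩ := hmem
  have hS : ∀ p q, Rch E D (p, v) (q, v) ↔ Rch E D' (p, v) (q, v) := by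
    intro p q
    have := congrArg (fun x : Full Q => (p, q) ∈ x.1) hfull
    exact iff_of_eq this
  -- base reachability transfers
  have hbase : ∀ p q, Rch E (C ∪ D) (p, v) (q, v) → Rch E (C ∪ D') (p, v) (q, v) := by
    intro p q hpq
    have h1 := decomp_base hCD hE hpq
    clear hpq
    induction h1 with
    | refl => exact ReflTransGen.refl
    | @tail q q' _ hstep ih =>
      refine ih.trans ?_
      rcases hstep with hs | hs
      · exact hs.mono Set.subset_union_left
      · exact ((hS _ _).1 hs).mono Set.subset_union_right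
  have tCC : ∀ c d : Q × Vx k, c.2 ∉ D → d.2 ∉ D → Rch E (C ∪ D) c d → Rch E (C ∪ D') c d := by
    intro c d hc hd h
    rcases rch_CC hCD hE hc hd h with h | ⟨p, q, h1, h2, h3⟩
    · exact h.mono Set.subset_union_left
    · exact ((h1.mono Set.subset_union_left).trans (hbase _ _ h2)).trans
        (h3.mono Set.subset_union_left)
  have tCD : ∀ c d d' : Q × Vx k, c.2 ∉ D → d.2 ∈ D → sig E D v d = sig E D' v d' →
      Rch E (C ∪ D) c d → Rch E (C ∪ D') c d' := by
    intro c d d' hc hd hs h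
    obtain ⟨p, q, h1, h2, h3⟩ := rch_CD hCD hE hc hd h
    refine ((h1.mono Set.subset_union_left).trans (hbase _ _ h2)).trans ?_
    have : q ∈ (sig E D v d).1 := h3
    rw [hs] at this
    exact Rch.mono Set.subset_union_right this
  have tDC : ∀ c d d' : Q × Vx k, c.2 ∉ D → d.2 ∈ D → sig E D v d = sig E D' v d' →
      Rch E (C ∪ D) d c → Rch E (C ∪ D') d' c := by
    intro c d d' hc hd hs h
    obtain ⟨p, q, h1, h2, h3⟩ := rch_DC hCD hE hd hc h
    refine ReflTransGen.trans ?_ ((hbase _ _ h2).trans (h3.mono Set.subset_union_left))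
    have : p ∈ (sig E D v d).2 := h1
    rw [hs] at this
    exact Rch.mono Set.subset_union_right this
  have tDD : ∀ c d c' d' : Q × Vx k, c.2 ∈ D → d.2 ∈ D → sig E D v c = sig E D' v c' →
      sig E D v d = sig E D' v d' → (Rch E D c d → Rch E D' c' d') →
      Rch E (C ∪ D) c d → Rch E (C ∪ D') c' d' := by
    intro c d c' d' hc hd hs1 hs2 hcd h
    rcases rch_DD hCD hE hc hd h with h | ⟨p, q, h1, h2, h3⟩
    · exact (hcd h).mono Set.subset_union_right
    · have e1 : p ∈ (sig E D v c).2 := h1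
      have e2 : q ∈ (sig E D v d).1 := h3
      rw [hs1] at e1
      rw [hs2] at e2
      exact ((Rch.mono Set.subset_union_right e1).trans (hbase _ _ h2)).trans
        (Rch.mono Set.subset_union_right e2)
  -- matching of pairs
  have hmatch : ∀ c' ∈ PD', ∀ d' ∈ PD', ∃ c ∈ PD, ∃ d ∈ PD,
      tup E D v e c d = tup E D' v e' c' d' := by
    intro c' hc' d' hd'
    have : tup E D' v e' c' d' ∈ ty E D v e PD := by
      rw [d4]
      exact ⟨c', hc', d', hd', rfl⟩
    obtain ⟨c, hc, d, hd, h⟩ := this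
    exact ⟨c, hc, d, hd, h.symm⟩
  have hmatch' : ∀ c' ∈ PD', ∀ d' ∈ PD', ∃ c ∈ PD, ∃ d ∈ PD,
      sig E D v c = sig E D' v c' ∧ sig E D v d = sig E D' v d' ∧
      (Rch E D c d ↔ Rch E D' c' d') ∧ (Rch E D d c ↔ Rch E D' d' c') ∧
      (c ∈ e ↔ c' ∈ e') ∧ (d ∈ e ↔ d' ∈ e') := by
    intro c' hc' d' hd'
    obtain ⟨c, hc, d, hd, h⟩ := hmatch c' hc' d' hd'
    simp only [tup, Prod.mk.injEq] at h
    obtain ⟨⟨h1, h2⟩, ⟨h3, h4⟩, h5, h6⟩ := h
    exact ⟨c, hc, d, hd, h1, h2, iff_of_eq h3, iff_of_eq h4, iff_of_eq h5, iff_of_eq h6⟩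
  have hmatch1 : ∀ c' ∈ PD', ∃ c ∈ PD, sig E D v c = sig E D' v c' := by
    intro c' hc'
    obtain ⟨c, hc, d, hd, h1, _⟩ := hmatch' c' hc' c' hc'
    exact ⟨c, hc, h1⟩
  have hsPC : (s, ([] : Vx k)) ∈ PC := ⟨p3, hnD⟩
  -- the end configuration
  have hend : (f, g') ∈ PC ∪ PD' ∧ (∀ c ∈ PC, Rch E (C ∪ D') c (f, g')) ∧
      ∀ c' ∈ PD', Rch E (C ∪ D') c' (f, g') := by
    rcases hends with ⟨rfl, h1, h2, _⟩ | ⟨h1, h2, rfl, rfl⟩
    · refine ⟨Or.inl ⟨p4, h1⟩, ?_, ?_⟩
      · intro c hc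
        exact tCC _ _ hc.2 h1 (p6 c hc.1).2
      · intro c' hc'
        obtain ⟨c, hc, hs⟩ := hmatch1 c' hc'
        exact tDC (f, g) c c' h1 hc.2 hs (p6 c hc.1).2
    · have hz' : (f, g') ∈ PD' := d3 rfl
      have hz : (f, g) ∈ PD := ⟨p4, h1⟩
      refine ⟨Or.inr hz', ?_, ?_⟩
      · intro c hc
        obtain ⟨a, ha, b, hb, h3, h4, h5, h6, h7, h8⟩ := hmatch' _ hz' _ hz'
        have : a = (f, g) := h7.2 rfl
        subst this
        exact tCD _ _ _ hc.2 h1 h3 (p6 c hc.1).2
      · intro c' hc'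
        obtain ⟨a, ha, b, hb, h3, h4, h5, h6, h7, h8⟩ := hmatch' _ hc' _ hz'
        have : b = (f, g) := h8.2 rfl
        subst this
        exact tDD _ _ _ _ ha.2 hb.2 h3 h4 h5.1 (p6 a ha.1).2
  refine ⟨PC ∪ PD', ?_, ?_, Or.inl hsPC, hend.1, ?_, ?_⟩
  · rintro c (hc | hc)
    · exact Or.inl (hPCC c hc)
    · exact Or.inr (d1 c hc)
  · intro t ht
    by_cases htD : t ∈ D'
    · obtain ⟨q, hq⟩ := d2 t htD
      exact ⟨q, Or.inr hq⟩
    · rcases ht with ht | ht
      · obtain ⟨q, hq⟩ := p2 t (Or.inl ht)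
        refine ⟨q, Or.inl ⟨hq, ?_⟩⟩
        intro h
        have := hCD t ht h
        exact htD (this ▸ hvD')
      · exact absurd ht htD
  · rintro c (hc | hc) d (hd | hd)
    · rcases p5 c hc.1 d hd.1 with h | h
      · exact Or.inl (tCC _ _ hc.2 hd.2 h)
      · exact Or.inr (tCC _ _ hd.2 hc.2 h)
    · obtain ⟨d0, hd0, hs⟩ := hmatch1 d hd
      rcases p5 c hc.1 d0 hd0.1 with h | h
      · exact Or.inl (tCD _ _ _ hc.2 hd0.2 hs h)
      · exact Or.inr (tDC _ _ _ hc.2 hd0.2 hs h)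
    · obtain ⟨c0, hc0, hs⟩ := hmatch1 c hc
      rcases p5 c0 hc0.1 d hd.1 with h | h
      · exact Or.inl (tDC _ _ _ hd.2 hc0.2 hs h)
      · exact Or.inr (tCD _ _ _ hd.2 hc0.2 hs h)
    · obtain ⟨a, ha, b, hb, h3, h4, h5, h6, _, _⟩ := hmatch' _ hc _ hd
      rcases p5 a ha.1 b hb.1 with h | h
      · exact Or.inl (tDD _ _ _ _ ha.2 hb.2 h3 h4 h5.1 h)
      · exact Or.inr (tDD _ _ _ _ hb.2 ha.2 h4 h3 h6.1 h)
  · rintro c (hc | hc)
    · exact ⟨tCC _ _ hnD hc.2 (p6 c hc.1).1, hend.2.1 c hc⟩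
    · obtain ⟨c0, hc0, hs⟩ := hmatch1 c hc
      exact ⟨tCD (s, []) c0 c hnD hc0.2 hs (p6 c0 hc0.1).1, hend.2.2 c hc⟩

end Pool.Agent.FIM
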