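import Mathlib
import Pool.Agent.MP_61c0e4_al.Glue

set_option autoImplicit false
set_option linter.unusedSimpArgs false
set_option linter.unusedSectionVars false

/-! Pumping down a covering walk. -/

namespace Pool.Agent.FIM

open Relation

variable {k : ℕ} {Q : Type*}

/-- Move a region below the vertex `v`. -/
def shift (v : Vx k) (U : Set (Vx k)) : Set (Vx k) := (fun u => u ++ v) '' U

/-- Move a configuration below the vertex `v`. -/
def sc (v : Vx k) (c : Q × Vx k) : Q × Vx k := (c.1, c.2 ++ v)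

lemma sc_inj (v : Vx k) : Function.Injective (sc v : Q × Vx k → Q × Vx k) := by
  rintro ⟨p, x⟩ ⟨q, y⟩ h
  simp only [sc, Prod.mk.injEq] at h
  exact Prod.ext h.1 (List.append_cancel_right h.2)

lemma edge_shift {E : Set (Q × Lt k × Q)} {U : Set (Vx k)} {v : Vx k} (hv : v ≠ [])
    (hU : ∀ u ∈ U, Red (u ++ v)) (c d : Q × Vx k) :
    Edge E (shift v U) (sc v c) (sc v d) ↔ Edge E U c d := by
  obtain ⟨p, x⟩ := c
  obtain ⟨q, y⟩ := d
  have hmem : ∀ z : Vx k, z ++ v ∈ shift v U ↔ z ∈ U := by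
    intro z
    constructor
    · rintro ⟨u, hu, h⟩
      rwa [← List.append_cancel_right h]
    · intro h
      exact ⟨z, h, rfl⟩
  simp only [Edge, sc, hmem]
  apply exists_congr
  intro a
  refine and_congr_right fun _ => ?_
  constructor
  · rintro ⟨h1, h2, h3⟩
    refine ⟨?_, h2, h3⟩
    cases x with
    | nil =>
      cases v with
      | nil => exact absurd rfl hv
      | cons b v =>
        simp only [List.nil_append, stp] at h1
        split_ifs at h1 with hb
        · have := congrArg List.length h1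
          simp at this
          omega
        · simp only [stp]
          have : y ++ (b :: v) = [a] ++ (b :: v) := by rw [h1]; rfl
          exact List.append_cancel_right this
    | cons b x =>
      simp only [List.cons_append, stp] at h1 ⊢
      split_ifs at h1 ⊢ with hb
      · exact List.append_cancel_right h1
      · have : y ++ v = (a :: b :: x) ++ v := by rw [h1]; rfl
        exact List.append_cancel_right this
  · rintro ⟨h1, h2, h3⟩
    refine ⟨?_, h2, h3⟩
    cases x with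
    | nil =>
      cases v with
      | nil => exact absurd rfl hv
      | cons b v =>
        simp only [stp] at h1
        subst h1
        simp only [List.nil_append, stp]
        rw [if_neg]
        · rfl
        · intro hb
          have h4 := hU _ h3
          have h5 := (List.isChain_cons_cons.1 h4).1
          apply h5
          rw [hb, iv_iv]
    | cons b x =>
      simp only [List.cons_append, stp] at h1 ⊢
      split_ifs at h1 ⊢ with hb
      · rw [h1]
      · rw [h1]; rfl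

lemma rch_shift {E : Set (Q × Lt k × Q)} {U : Set (Vx k)} {v : Vx k} (hv : v ≠ [])
    (hU : ∀ u ∈ U, Red (u ++ v)) (c d : Q × Vx k) :
    Rch E (shift v U) (sc v c) (sc v d) ↔ Rch E U c d := by
  constructor
  · intro h
    suffices H : ∀ z, Rch E (shift v U) (sc v c) z → ∃ d, z = sc v d ∧ Rch E U c d by
      obtain ⟨d', h1, h2⟩ := H _ h
      rwa [sc_inj v h1]
    intro z hz
    induction hz with
    | refl => exact ⟨c, rfl, ReflTransGen.refl⟩
    | @tail y z _ hs ih =>
      obtain ⟨d', rfl, h2⟩ := ih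
      have hz : ∃ d'', z = sc v d'' := by
        obtain ⟨a, _, _, _, ⟨u, _, h5⟩⟩ := hs
        exact ⟨(z.1, u), Prod.ext rfl h5.symm⟩
      obtain ⟨d'', rfl⟩ := hz
      exact ⟨d'', rfl, h2.tail ((edge_shift hv hU _ _).1 hs)⟩
  · intro h
    exact ReflTransGen.lift (sc v) (fun a b hab => (edge_shift hv hU a b).2 hab) _ _ h

lemma sig_shift {E : Set (Q × Lt k × Q)} {U : Set (Vx k)} {v : Vx k} (hv : v ≠ [])
    (hU : ∀ u ∈ U, Red (u ++ v)) (c : Q × Vx k) :
    sig E (shift v U) v (sc v c) = sig E U [] c := by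
  have h1 : ∀ p, Rch E (shift v U) (p, v) (sc v c) ↔ Rch E U (p, []) c := by
    intro p
    have := rch_shift (E := E) hv hU (p, []) c
    simpa [sc] using this
  have h2 : ∀ p, Rch E (shift v U) (sc v c) (p, v) ↔ Rch E U c (p, []) := by
    intro p
    have := rch_shift (E := E) hv hU c (p, [])
    simpa [sc] using this
  simp only [sig, h1, h2]

lemma tup_shift {E : Set (Q × Lt k × Q)} {U : Set (Vx k)} {v : Vx k} (hv : v ≠ [])
    (hU : ∀ u ∈ U, Red (u ++ v)) (e : Set (Q × Vx k)) (c d : Q × Vx k) :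
    tup E (shift v U) v (sc v '' e) (sc v c) (sc v d) = tup E U [] e c d := by
  simp only [tup, sig_shift hv hU, rch_shift hv hU, (sc_inj v).mem_set_image]

lemma ty_shift {E : Set (Q × Lt k × Q)} {U : Set (Vx k)} {v : Vx k} (hv : v ≠ [])
    (hU : ∀ u ∈ U, Red (u ++ v)) (e P : Set (Q × Vx k)) :
    ty E (shift v U) v (sc v '' e) (sc v '' P) = ty E U [] e P := by
  ext t
  simp only [ty, Set.mem_ofPred_eq, Set.exists_mem_image, tup_shift hv hU]

lemma full_shift {E : Set (Q × Lt k × Q)} {U : Set (Vx k)} {v : Vx k} (hv : v ≠ [])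
    (hU : ∀ u ∈ U, Red (u ++ v)) (e : Set (Q × Vx k)) :
    full E (shift v U) v (sc v '' e) = full E U [] e := by
  refine Prod.ext ?_ ?_
  · ext ⟨p, q⟩
    have := rch_shift (E := E) hv hU (p, []) (q, [])
    simpa [full, sc] using this
  · ext τ
    simp only [full, Set.mem_ofPred_eq]
    constructor
    · rintro ⟨P, h1, h2, h3, rfl⟩
      refine ⟨sc v ⁻¹' P, ?_, ?_, ?_, ?_⟩
      · intro c hc
        obtain ⟨u, hu, h⟩ := h1 _ hc
        have : c.2 = u := (List.append_cancel_right h).symm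
        rwa [this]
      · intro t ht
        obtain ⟨q, hq⟩ := h2 (t ++ v) ⟨t, ht, rfl⟩
        exact ⟨q, hq⟩
      · intro c hc
        exact h3 ⟨c, hc, rfl⟩
      · rw [← ty_shift hv hU, Set.image_preimage_eq_of_subset]
        intro c hc
        obtain ⟨u, _, h⟩ := h1 c hc
        exact ⟨(c.1, u), Prod.ext rfl h⟩
    · rintro ⟨P, h1, h2, h3, rfl⟩
      refine ⟨sc v '' P, ?_, ?_, Set.image_mono h3, (ty_shift hv hU _ _).symm⟩
      · rintro _ ⟨c, hc, rfl⟩
        exact ⟨c.2, h1 c hc, rfl⟩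
      · rintro _ ⟨t, ht, rfl⟩
        obtain ⟨q, hq⟩ := h2 t ht
        exact ⟨q, (q, t), hq, rfl⟩

/-- The subtree of `T` below `v`. -/
def sub (T : Set (Vx k)) (v : Vx k) : Set (Vx k) := {u | u ++ v ∈ T}

/-- The context of `v` in `T`. -/
def ctx (T : Set (Vx k)) (v : Vx k) : Set (Vx k) := {t | t ∈ T ∧ ¬ v <:+ t} ∪ {v}

/-- Marker of the end configuration. -/
def mk (f : Q) (g v : Vx k) : Set (Q × Vx k) := {c | c.1 = f ∧ c.2 ++ v = g}

lemma union_ctx_sub {T : Set (Vx k)} {v : Vx k} (hv : v ∈ T) :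
    ctx T v ∪ shift v (sub T v) = T := by
  ext t
  simp only [ctx, shift, sub, Set.mem_union, Set.mem_ofPred_eq, Set.mem_singleton_iff,
    Set.mem_image]
  constructor
  · rintro ((h | rfl) | ⟨u, hu, rfl⟩)
    · exact h.1
    · exact hv
    · exact hu
  · intro ht
    by_cases h : v <:+ t
    · obtain ⟨u, rfl⟩ := h
      exact Or.inr ⟨u, ht, rfl⟩
    · exact Or.inl (Or.inl ⟨ht, h⟩)

lemma ctx_shift_inter {T U : Set (Vx k)} {v : Vx k} (t : Vx k) (h1 : t ∈ ctx T v)
    (h2 : t ∈ shift v U) : t = v := by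
  obtain ⟨u, _, rfl⟩ := h2
  rcases h1 with h1 | h1
  · exact absurd ⟨u, rfl⟩ h1.2
  · exact h1

lemma edge_ctx {E : Set (Q × Lt k × Q)} {T U : Set (Vx k)} {v : Vx k} (hU : [] ∈ U)
    (c d : Q × Vx k) (h : Edge E (ctx T v ∪ shift v U) c d) :
    Edge E (ctx T v) c d ∨ Edge E (shift v U) c d := by
  obtain ⟨a, h1, h2, h3, h4⟩ := h
  have hvC : v ∈ ctx T v := Or.inr rfl
  have hvD : v ∈ shift v U := ⟨[], hU, rfl⟩
  -- adjacency
  have hadj : d.2 = a :: c.2 ∨ ∃ b, c.2 = b :: d.2 := by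
    rw [h2]
    cases c.2 with
    | nil => left; rfl
    | cons b x =>
      simp only [stp]
      split_ifs
      · right; exact ⟨b, rfl⟩
      · left; rfl
  have key : ∀ x y : Vx k, x ∈ ctx T v → y ∈ shift v U →
      (y = a :: x ∨ (∃ b, x = b :: y) ∨ x = a :: y ∨ ∃ b, y = b :: x) → x = v ∨ y = v := by
    rintro x y hx ⟨u, hu, rfl⟩ hxy
    rcases hx with hx | hx
    · have hxv := hx.2
      right
      have hb : ∃ b, u ++ v = b :: x := by
        rcases hxy with h | ⟨b, h⟩ | h | ⟨b, h⟩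
        · exact ⟨a, h⟩
        · exact absurd ⟨b :: u, by simp [h]⟩ hxv
        · exact absurd ⟨a :: u, by simp [h]⟩ hxv
        · exact ⟨b, h⟩
      obtain ⟨b, hb⟩ := hb
      cases u with
      | nil => simp
      | cons b' u =>
        simp only [List.cons_append, List.cons.injEq] at hb
        exact absurd ⟨u, hb.2⟩ hxv
    · left; exact hx
  rcases h3 with h3 | h3 <;> rcases h4 with h4 | h4
  · exact Or.inl ⟨a, h1, h2, h3, h4⟩
  · have : c.2 = v ∨ d.2 = v := by
      apply key _ _ h3 h4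
      rcases hadj with h | ⟨b, h⟩
      · exact Or.inl h
      · exact Or.inr (Or.inl ⟨b, h⟩)
    rcases this with h | h
    · exact Or.inr ⟨a, h1, h2, h ▸ hvD, h4⟩
    · exact Or.inl ⟨a, h1, h2, h3, h ▸ hvC⟩
  · have : d.2 = v ∨ c.2 = v := by
      apply key _ _ h4 h3
      rcases hadj with h | ⟨b, h⟩
      · exact Or.inr (Or.inr (Or.inl h))
      · exact Or.inr (Or.inr (Or.inr ⟨b, h⟩))
    rcases this with h | h
    · exact Or.inr ⟨a, h1, h2, h3, h ▸ hvD⟩
    · exact Or.inl ⟨a, h1, h2, h ▸ hvC, h4⟩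
  · exact Or.inr ⟨a, h1, h2, h3, h4⟩

/-- Replacement in the tree `ctx T v ∪ shift v U`. -/
lemma replace_tree {E : Set (Q × Lt k × Q)} {T U U' : Set (Vx k)} {v : Vx k} (hv : v ≠ [])
    (hT : [] ∈ T) (hU : ∀ u ∈ U, Red (u ++ v)) (hU' : ∀ u ∈ U', Red (u ++ v))
    (hnU : [] ∈ U) (hnU' : [] ∈ U') {s f : Q} {g g' : Vx k} {e e' : Set (Q × Vx k)}
    (hends : (g = g' ∧ ¬ v <:+ g ∧ g ∈ T ∧ e = ∅) ∨
      (∃ u ∈ U, ∃ u' ∈ U', g = u ++ v ∧ g' = u' ++ v ∧ e = {(f, u)} ∧ e' = {(f, u')}))
    (hfull : full E U [] e = full E U' [] e')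
    (h : AccP E (ctx T v ∪ shift v U) s g f) : AccP E (ctx T v ∪ shift v U') s g' f := by
  have hnv : ([] : Vx k) ≠ v := fun h => hv h.symm
  have hnC : [] ∈ ctx T v := Or.inl ⟨hT, by simpa using hv⟩
  have hvD : v ∈ shift v U := ⟨[], hnU, rfl⟩
  have hvD' : v ∈ shift v U' := ⟨[], hnU', rfl⟩
  refine replace (e := sc v '' e) (e' := sc v '' e') hnC hnv hvD hvD'
    ctx_shift_inter ctx_shift_inter (edge_ctx hnU) ?_ ?_ h
  · rcases hends with ⟨rfl, h1, h2, rfl⟩ | ⟨u, hu, u', hu', rfl, rfl, rfl, rfl⟩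
    · left
      refine ⟨rfl, ?_, Or.inl ⟨h2, h1⟩, by simp⟩
      rintro ⟨u, _, rfl⟩
      exact h1 ⟨u, rfl⟩
    · right
      exact ⟨⟨u, hu, rfl⟩, ⟨u', hu', rfl⟩, by simp [sc], by simp [sc]⟩
  · rw [full_shift hv hU, full_shift hv hU', hfull]

lemma vis_suffix {x w t y : Vx k} (ht : t ∈ vis x w) (hy : y <:+ t) :
    y <:+ x ∨ y ∈ vis x w := by
  induction w generalizing x with
  | nil =>
    simp only [vis_nil, List.mem_singleton] at ht
    subst ht
    exact Or.inl hy
  | cons a w ih =>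
    rw [vis_cons, List.mem_cons] at ht
    rcases ht with rfl | ht
    · exact Or.inl hy
    · rcases ih ht with h | h
      · cases x with
        | nil =>
          simp only [stp] at h
          rcases List.suffix_cons_iff.1 h with h | h
          · right
            rw [vis_cons, List.mem_cons]
            right
            rw [h]
            exact start_mem_vis _ _
          · exact Or.inl h
        | cons b x =>
          simp only [stp] at h
          split_ifs at h with hb
          · exact Or.inl (h.trans (List.suffix_cons _ _))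
          · rcases List.suffix_cons_iff.1 h with h | h
            · right
              rw [vis_cons, List.mem_cons]
              right
              rw [h]
              have : stp (b :: x) a = a :: b :: x := by simp only [stp]; rw [if_neg hb]
              rw [this]
              exact start_mem_vis _ _
            · exact Or.inl h
      · right
        rw [vis_cons, List.mem_cons]
        exact Or.inr h

lemma vis_suffix_nil {w t y : Vx k} (ht : t ∈ vis [] w) (hy : y <:+ t) : y ∈ vis [] w := by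
  rcases vis_suffix ht hy with h | h
  · rw [List.suffix_nil] at h
    subst h
    exact start_mem_vis _ _
  · exact h

lemma shrink_card {T : Set (Vx k)} (hT : T.Finite) {v v' : Vx k} (hv : v ∈ T) (hv' : v' ∈ T)
    (hvv : v <:+ v') (hne : v ≠ v') :
    (ctx T v ∪ shift v (sub T v')).Finite ∧ (ctx T v ∪ shift v (sub T v')).ncard < T.ncard := by
  classical
  let φ : Vx k → Vx k := fun t =>
    if v' <:+ t then (t.take (t.length - v'.length)) ++ v else t
  have hφ : ∀ u, φ (u ++ v') = u ++ v := by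
    intro u
    simp [φ]
  have hsub : (ctx T v ∪ shift v (sub T v')) ⊆ φ '' (T \ {v}) := by
    rintro t ((⟨ht, ht'⟩ | ht) | ⟨u, hu, rfl⟩)
    · refine ⟨t, ⟨ht, ?_⟩, ?_⟩
      · rintro rfl
        exact ht' (List.suffix_refl _)
      · simp only [φ]
        rw [if_neg]
        intro h
        exact ht' (hvv.trans h)
    · refine ⟨v', ⟨hv', fun h => hne h.symm⟩, ?_⟩
      have := hφ []
      rw [List.nil_append, List.nil_append] at this
      rw [this, ht]
    · refine ⟨u ++ v', ⟨hu, ?_⟩, hφ u⟩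
      intro h
      have h1 : (u ++ v').length = v.length := congrArg List.length h
      have h2 := hvv.length_le
      rw [List.length_append] at h1
      exact hne (hvv.eq_of_length (by omega))
  have hfin : (T \ {v}).Finite := hT.subset Set.sdiff_subset
  refine ⟨(hfin.image φ).subset hsub, ?_⟩
  calc (ctx T v ∪ shift v (sub T v')).ncard ≤ (φ '' (T \ {v})).ncard :=
        Set.ncard_le_ncard hsub (hfin.image φ)
    _ ≤ (T \ {v}).ncard := Set.ncard_image_le hfin
    _ < T.ncard := Set.ncard_lt_ncard (by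
        refine ⟨Set.sdiff_subset, fun h => ?_⟩
        exact (h hv).2 rfl) hT

lemma mk_empty (f : Q) {g x : Vx k} (hx : ¬ x <:+ g) : mk f g x = ∅ := by
  ext c
  simp only [mk, Set.mem_ofPred_eq, Set.mem_empty_iff_false, iff_false, not_and]
  intro _ h
  exact hx ⟨c.2, h⟩

lemma mk_single (f : Q) {g x u : Vx k} (hx : g = u ++ x) : mk f g x = {(f, u)} := by
  ext c
  simp only [mk, Set.mem_ofPred_eq, Set.mem_singleton_iff]
  constructor
  · rintro ⟨h1, h2⟩
    rw [hx] at h2
    exact Prod.ext h1 (List.append_cancel_right h2)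
  · rintro rfl
    exact ⟨rfl, hx.symm⟩

/-- Fingerprint of a vertex. -/
abbrev FP (k : ℕ) (Q1 Q2 : Type*) := Lt k × Prop × (Q1 → Full Q1) × (Q2 → Full Q2)

/-- Pumping down. -/
theorem pump_down {Q1 Q2 : Type*} [Fintype Q1] [Fintype Q2] [Fintype (FP k Q1 Q2)]
    (E1 : Set (Q1 × Lt k × Q1)) (E2 : Set (Q2 × Lt k × Q2)) (s1 : Q1) (s2 : Q2) (F2 : Set Q2)
    {w : List (Lt k)} {f1 : Q1} (h1 : Run E1 s1 w f1)
    (h2 : ∀ w', Same w w' → ∀ f2 ∈ F2, ¬ Run E2 s2 w' f2)
    {t : Vx k} (ht : t ∈ vis [] w) (hdeep : Fintype.card (FP k Q1 Q2) < t.length) :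
    ∃ w', Run E1 s1 w' f1 ∧ (∀ w'', Same w' w'' → ∀ f2 ∈ F2, ¬ Run E2 s2 w'' f2) ∧
      {x | x ∈ vis [] w'}.ncard < {x | x ∈ vis [] w}.ncard := by
  classical
  set T : Set (Vx k) := {x | x ∈ vis [] w} with hT
  set g := pos [] w with hg
  have hTfin : T.Finite := List.finite_toSet _
  have hgT : g ∈ T := pos_mem_vis _ _
  have hnT : ([] : Vx k) ∈ T := start_mem_vis _ _
  have hred : ∀ x ∈ T, Red x := fun x hx => vis_red red_nil w hx
  have hsuf : ∀ x ∈ T, ∀ y, y <:+ x → y ∈ T := fun x hx y hy => vis_suffix_nil hx hy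
  have hlt0 : 0 < t.length := by omega
  -- fingerprints of the suffixes of `t`
  let Φ : Fin t.length → FP k Q1 Q2 := fun i =>
    (t[i], t.drop i <:+ g,
      fun f => full E1 (sub T (t.drop i)) [] (mk f g (t.drop i)),
      fun f => full E2 (sub T (t.drop i)) [] (mk f g (t.drop i)))
  obtain ⟨i, j, hij, hΦ⟩ := Fintype.exists_ne_map_eq_of_card_lt Φ (by simpa using hdeep)
  wlog hlt : (i : ℕ) < j generalizing i j
  · exact this j i hij.symm hΦ.symm (by
      have : (i : ℕ) ≠ j := fun h => hij (Fin.ext h)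
      omega)
  simp only [Φ, Prod.mk.injEq] at hΦ
  obtain ⟨e1, e2, e3, e4⟩ := hΦ
  set v := t.drop j with hv
  set v' := t.drop i with hv'
  have hvT : v ∈ T := hsuf t ht _ (List.drop_suffix _ _)
  have hv'T : v' ∈ T := hsuf t ht _ (List.drop_suffix _ _)
  have hvv : v <:+ v' := by
    rw [hv, hv']
    have : t.drop j = (t.drop i).drop (j - i) := by
      rw [List.drop_drop]
      congr 1
      omega
    rw [this]
    exact List.drop_suffix _ _
  have hlen : v.length < v'.length := by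
    rw [hv, hv', List.length_drop, List.length_drop]
    have := j.2
    omega
  have hne : v ≠ v' := fun h => by rw [h] at hlen; exact lt_irrefl _ hlen
  have hvn : v ≠ [] := by
    intro h
    have : v.length = 0 := by rw [h]; rfl
    rw [hv, List.length_drop] at this
    have := j.2
    omega
  have hvc : v = t[j] :: t.drop (j + 1) := by
    rw [hv, List.drop_eq_getElem_cons j.2]; rfl
  have hvc' : v' = t[j] :: t.drop (i + 1) := by
    rw [hv', List.drop_eq_getElem_cons i.2, ← e1]; rfl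
  -- reducedness
  have hU : ∀ u ∈ sub T v, Red (u ++ v) := fun u hu => hred _ hu
  have hU' : ∀ u ∈ sub T v', Red (u ++ v) := by
    intro u hu
    have r1 : Red (u ++ v') := hred _ hu
    have r2 : Red v := hred _ hvT
    unfold Red at *
    rw [hvc', List.isChain_split] at r1
    rw [hvc] at r2 ⊢
    rw [List.isChain_split]
    exact ⟨r1.1, r2⟩
  have hnU : [] ∈ sub T v := hvT
  have hnU' : [] ∈ sub T v' := hv'T
  -- the new end vertex
  obtain ⟨g', hg'⟩ : ∃ g', (g = g' ∧ ¬ v <:+ g ∧ ¬ v' <:+ g) ∨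
      (∃ u ∈ sub T v, ∃ u' ∈ sub T v', g = u ++ v ∧ g' = u' ++ v ∧ g = u' ++ v') := by
    by_cases hvg : v <:+ g
    · have hvg' : v' <:+ g := by rw [e2]; exact hvg
      obtain ⟨u, hu⟩ := hvg
      obtain ⟨u', hu'⟩ := hvg'
      refine ⟨u' ++ v, Or.inr ⟨u, ?_, u', ?_, hu.symm, rfl, hu'.symm⟩⟩
      · change u ++ v ∈ T
        rw [hu]; exact hgT
      · change u' ++ v' ∈ T
        rw [hu']; exact hgT
    · have hvg' : ¬ v' <:+ g := by rw [e2]; exact hvg
      exact ⟨g, Or.inl ⟨rfl, hvg, hvg'⟩⟩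
  set T' := ctx T v ∪ shift v (sub T v') with hT'
  obtain ⟨hfin', hcard⟩ := shrink_card hTfin hvT hv'T hvv hne
  -- transfer
  have hg'mem : g' ∈ T' := by
    rcases hg' with ⟨rfl, a1, a2⟩ | ⟨u, hu, u', hu', b1, b2, b3⟩
    · exact Or.inl (Or.inl ⟨hgT, a1⟩)
    · exact Or.inr ⟨u', hu', b2.symm⟩
  have forward : ∀ (f : Q1), AccP E1 T s1 g f → AccP E1 T' s1 g' f := by
    intro f h
    rw [← union_ctx_sub hvT] at h
    refine replace_tree (e := mk f g v) (e' := mk f g v') hvn hnT hU hU' hnU hnU' ?_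
      (congrFun e3 f).symm h
    rcases hg' with ⟨rfl, a1, a2⟩ | ⟨u, hu, u', hu', b1, b2, b3⟩
    · left
      exact ⟨rfl, a1, hgT, mk_empty _ a1⟩
    · right
      exact ⟨u, hu, u', hu', b1, b2, mk_single _ b1, mk_single _ b3⟩
  have backward : ∀ (f : Q2), AccP E2 T' s2 g' f → AccP E2 T s2 g f := by
    intro f h
    rw [← union_ctx_sub hvT]
    refine replace_tree (e := mk f g v') (e' := mk f g v) hvn hnT hU' hU hnU' hnU ?_
      (congrFun e4 f) h
    rcases hg' with ⟨rfl, a1, a2⟩ | ⟨u, hu, u', hu', b1, b2, b3⟩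
    · left
      exact ⟨rfl, a1, hgT, mk_empty _ a2⟩
    · right
      exact ⟨u', hu', u, hu, b2, b1, mk_single _ b3, mk_single _ b1⟩
  obtain ⟨w', c1, c2, c3⟩ := cov_of_accP hfin' (forward f1 (accP_of_cov ⟨w, h1, rfl, fun _ => Iff.rfl⟩))
  refine ⟨w', c1, ?_, ?_⟩
  · intro w'' hs f2 hf2 hrun
    have hcov : Cov E2 T' s2 g' f2 :=
      ⟨w'', hrun, by rw [← hs.2, c2], fun t => by rw [← hs.1 t, c3 t]⟩
    obtain ⟨w3, d1, d2, d3⟩ := cov_of_accP hTfin (backward f2 (accP_of_cov hcov))
    exact h2 w3 ⟨fun t => (d3 t).symm, d2.symm⟩ f2 hf2 d1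
  · have : {x | x ∈ vis [] w'} = T' := by
      ext t
      exact c3 t
    rw [this]
    exact hcard

/-- Pumping down to bounded height. -/
theorem pump {Q1 Q2 : Type*} [Fintype Q1] [Fintype Q2] [Fintype (FP k Q1 Q2)]
    (E1 : Set (Q1 × Lt k × Q1)) (E2 : Set (Q2 × Lt k × Q2)) (s1 : Q1) (s2 : Q2) (F2 : Set Q2)
    {w : List (Lt k)} {f1 : Q1} (h1 : Run E1 s1 w f1)
    (h2 : ∀ w', Same w w' → ∀ f2 ∈ F2, ¬ Run E2 s2 w' f2) :
    ∃ w', Run E1 s1 w' f1 ∧ (∀ w'', Same w' w'' → ∀ f2 ∈ F2, ¬ Run E2 s2 w'' f2) ∧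
      ∀ t ∈ vis [] w', t.length ≤ Fintype.card (FP k Q1 Q2) := by
  induction hn : {x | x ∈ vis [] w}.ncard using Nat.strong_induction_on generalizing w with
  | _ n ih =>
    by_cases hd : ∃ t ∈ vis [] w, Fintype.card (FP k Q1 Q2) < t.length
    · obtain ⟨t, ht, hd⟩ := hd
      obtain ⟨w', a1, a2, a3⟩ := pump_down E1 E2 s1 s2 F2 h1 h2 ht hd
      exact ih _ (hn ▸ a3) a1 a2 rfl
    · push Not at hd
      exact ⟨w, h1, h2, hd⟩

end Pool.Agent.FIM
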