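import Mathlib
import Pool.Agent.MP_61c0e4_al.Pump

set_option autoImplicit false
set_option linter.unusedSimpArgs false
set_option linter.unusedSectionVars false

/-! The decision procedure for inclusion and its primitive recursiveness. -/

namespace Pool.Agent.FIM

open Relation

variable {k : ℕ}

/-- Coded automata: transitions, initial state, final states. -/
abbrev Aut (k : ℕ) := List (ℕ × Lt k × ℕ) × ℕ × List ℕ

/-- Successor states. -/
def nxt (E : List (ℕ × Lt k × ℕ)) (S : List ℕ) (a : Lt k) : List ℕ :=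
  E.filterMap (fun e => if e.1 ∈ S ∧ e.2.1 = a then some e.2.2 else none)

/-- Acceptance, computed by the subset construction. -/
def Acpt (A : Aut k) (w : List (Lt k)) : Prop := ∃ q ∈ w.foldl (nxt A.1) [A.2.1], q ∈ A.2.2

/-- Transition set. -/
def tr (A : Aut k) : Set (ℕ × Lt k × ℕ) := {e | e ∈ A.1}

lemma mem_nxt (E : List (ℕ × Lt k × ℕ)) (S : List ℕ) (a : Lt k) (q : ℕ) :
    q ∈ nxt E S a ↔ ∃ p ∈ S, (p, a, q) ∈ E := by
  simp only [nxt, List.mem_filterMap, Option.ite_none_right_eq_some, Option.some.injEq]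
  constructor
  · rintro ⟨⟨p, b, q'⟩, he, ⟨h1, h2⟩, h3⟩
    simp only at h1 h2 h3
    subst h2 h3
    exact ⟨p, h1, he⟩
  · rintro ⟨p, h1, h2⟩
    exact ⟨(p, a, q), h2, ⟨h1, rfl⟩, rfl⟩

lemma mem_foldl_nxt (E : List (ℕ × Lt k × ℕ)) (w : List (Lt k)) (S : List ℕ) (q : ℕ) :
    q ∈ w.foldl (nxt E) S ↔ ∃ p ∈ S, Run {e | e ∈ E} p w q := by
  induction w generalizing S with
  | nil =>
    simp only [List.foldl_nil]
    constructor
    · intro h; exact ⟨q, h, Run.nil q⟩
    · rintro ⟨p, hp, h⟩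
      cases h
      exact hp
  | cons a w ih =>
    rw [List.foldl_cons, ih]
    constructor
    · rintro ⟨p, hp, h⟩
      rw [mem_nxt] at hp
      obtain ⟨p', hp', he⟩ := hp
      exact ⟨p', hp', Run.cons he h⟩
    · rintro ⟨p, hp, h⟩
      cases h with
      | @cons _ _ p' _ _ he h =>
        exact ⟨p', (mem_nxt _ _ _ _).2 ⟨p, hp, he⟩, h⟩

lemma acpt_iff (A : Aut k) (w : List (Lt k)) :
    Acpt A w ↔ ∃ f ∈ A.2.2, Run (tr A) A.2.1 w f := by
  simp only [Acpt, mem_foldl_nxt, List.mem_singleton, exists_eq_left]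
  constructor
  · rintro ⟨q, h1, h2⟩; exact ⟨q, h2, h1⟩
  · rintro ⟨q, h1, h2⟩; exact ⟨q, h2, h1⟩

/-- Acceptance by an explicit sequence of states. -/
lemma run_of_seq {E : Set (ℕ × Lt k × ℕ)} (w : List (Lt k)) : ∀ (p : ℕ) (s : List ℕ),
    s.length = w.length + 1 → s.getD 0 0 = p →
    (∀ (i : ℕ) (a : Lt k), w[i]? = some a → (s.getD i 0, a, s.getD (i + 1) 0) ∈ E) →
    Run E p w (s.getD w.length 0) := by
  induction w with
  | nil =>
    intro p s _ h2 _
    simp only [List.length_nil]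
    rw [h2]
    exact Run.nil p
  | cons a w ih =>
    intro p s h1 h2 h3
    cases s with
    | nil => simp at h1
    | cons q s =>
      have e0 := h3 0 a (by simp)
      simp only [List.getD_cons_zero, List.getD_cons_succ] at e0 h2
      subst h2
      refine Run.cons e0 ?_
      have := ih (s.getD 0 0) s (by simpa using h1) rfl (fun i b hb => by
        have := h3 (i + 1) b (by simpa using hb)
        simpa using this)
      simpa using this

lemma seq_of_run {E : Set (ℕ × Lt k × ℕ)} {p f : ℕ} {w : List (Lt k)} (h : Run E p w f) :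
    ∃ s : List ℕ, s.length = w.length + 1 ∧ s.getD 0 0 = p ∧ s.getD w.length 0 = f ∧
    (∀ (i : ℕ) (a : Lt k), w[i]? = some a → (s.getD i 0, a, s.getD (i + 1) 0) ∈ E) := by
  induction h with
  | nil p => exact ⟨[p], by simp, by simp, by simp, by simp⟩
  | @cons p a q w r he _ ih =>
    obtain ⟨s, h1, h2, h3, h4⟩ := ih
    refine ⟨p :: s, by simp [h1], by simp, by simpa using h3, ?_⟩
    intro i b hb
    cases i with
    | zero =>
      simp only [List.length_cons, Nat.zero_lt_succ, List.getElem?_cons_zero,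
        Option.some.injEq] at hb
      subst hb
      simpa [← h2] using he
    | succ i =>
      simp only [List.getElem?_cons_succ] at hb
      have := h4 i b hb
      simpa using this

lemma accept_iff (A : Aut k) (w : List (Lt k)) :
    (∃ s : List ℕ, s.length = w.length + 1 ∧ s.getD 0 0 = A.2.1 ∧
      s.getD w.length 0 ∈ A.2.2 ∧
      ∀ (i : ℕ) (a : Lt k), w[i]? = some a → (s.getD i 0, a, s.getD (i + 1) 0) ∈ A.1) ↔
    ∃ f ∈ A.2.2, Run (tr A) A.2.1 w f := by
  constructor
  · rintro ⟨s, h1, h2, h3, h4⟩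
    exact ⟨_, h3, run_of_seq w _ s h1 h2 h4⟩
  · rintro ⟨f, hf, h⟩
    obtain ⟨s, h1, h2, h3, h4⟩ := seq_of_run h
    exact ⟨s, h1, h2, h3 ▸ hf, h4⟩

/-- A strict bound for the states of an automaton. -/
def bd (A : Aut k) : ℕ := A.1.foldl (fun m e => m + e.1 + e.2.2) A.2.1 + 1

lemma foldl_bd (L : List (ℕ × Lt k × ℕ)) (m : ℕ) :
    m ≤ L.foldl (fun m e => m + e.1 + e.2.2) m ∧
      ∀ e ∈ L, e.1 ≤ L.foldl (fun m e => m + e.1 + e.2.2) m ∧
        e.2.2 ≤ L.foldl (fun m e => m + e.1 + e.2.2) m := by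
  induction L generalizing m with
  | nil => simp
  | cons a L ih =>
    rw [List.foldl_cons]
    obtain ⟨h1, h2⟩ := ih (m + a.1 + a.2.2)
    refine ⟨by omega, ?_⟩
    intro e he
    rw [List.mem_cons] at he
    rcases he with rfl | he
    · constructor <;> omega
    · exact h2 e he

/-- Transition set on `Fin N`. -/
def trF (A : Aut k) (N : ℕ) : Set (Fin N × Lt k × Fin N) :=
  {e | ((e.1 : ℕ), e.2.1, (e.2.2 : ℕ)) ∈ A.1}

lemma run_of_runF {A : Aut k} {N : ℕ} {p q : Fin N} {w : List (Lt k)}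
    (h : Run (trF A N) p w q) : Run (tr A) (p : ℕ) w (q : ℕ) := by
  induction h with
  | nil p => exact Run.nil _
  | cons he _ ih => exact Run.cons he ih

lemma runF_of_run {A : Aut k} {N : ℕ} (hN : ∀ e ∈ A.1, e.2.2 < N) {p q : ℕ} {w : List (Lt k)}
    (h : Run (tr A) p w q) : ∀ hp : p < N, ∃ hq : q < N, Run (trF A N) ⟨p, hp⟩ w ⟨q, hq⟩ := by
  induction h with
  | nil p => intro hp; exact ⟨hp, Run.nil _⟩
  | @cons p a q w r he _ ih =>
    intro hp
    have hq : q < N := hN _ he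
    obtain ⟨hr, h⟩ := ih hq
    exact ⟨hr, Run.cons (q := ⟨q, hq⟩)
      (show ((⟨p, hp⟩ : Fin N), a, (⟨q, hq⟩ : Fin N)) ∈ trF A N from he) h⟩

lemma start_lt_bd (A : Aut k) : A.2.1 < bd A := by
  have := (foldl_bd A.1 A.2.1).1
  unfold bd; omega

lemma tr_lt_bd (A : Aut k) : ∀ e ∈ A.1, e.2.2 < bd A := by
  intro e he
  have := ((foldl_bd A.1 A.2.1).2 e he).2
  unfold bd; omega

/-- Acceptance through `Fin`. -/
lemma accF (A : Aut k) (w : List (Lt k)) :
    (∃ f ∈ A.2.2, Run (tr A) A.2.1 w f) ↔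
      ∃ f ∈ {f : Fin (bd A) | (f : ℕ) ∈ A.2.2}, Run (trF A (bd A)) ⟨A.2.1, start_lt_bd A⟩ w f := by
  constructor
  · rintro ⟨f, hf, h⟩
    obtain ⟨hq, h'⟩ := runF_of_run (tr_lt_bd A) h (start_lt_bd A)
    exact ⟨⟨f, hq⟩, hf, h'⟩
  · rintro ⟨f, hf, h⟩
    exact ⟨f, hf, run_of_runF h⟩

/-- All letters. -/
def letters (k : ℕ) : List (Lt k) := (List.finRange k).flatMap (fun i => [(i, true), (i, false)])

lemma mem_letters (a : Lt k) : a ∈ letters k := by
  obtain ⟨i, b⟩ := a
  simp only [letters, List.mem_flatMap, List.mem_finRange, true_and]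
  exact ⟨i, by cases b <;> simp⟩

/-- All words of length at most `n`. -/
def words (k : ℕ) : ℕ → List (List (Lt k))
  | 0 => [[]]
  | n + 1 => [] :: (words k n).flatMap (fun w => (letters k).map (fun a => a :: w))

lemma mem_words (n : ℕ) (w : List (Lt k)) (h : w.length ≤ n) : w ∈ words k n := by
  induction n generalizing w with
  | zero =>
    have : w = [] := List.length_eq_zero_iff.1 (by omega)
    subst this
    simp [words]
  | succ n ih =>
    cases w with
    | nil => simp [words]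
    | cons a w =>
      simp only [words, List.mem_cons, List.mem_flatMap, List.mem_map]
      right
      exact ⟨w, ih w (by simpa using h), a, mem_letters a, rfl⟩

/-- Height bound. -/
def hb (k N1 N2 : ℕ) : ℕ :=
  (k * 2) * (2 * ((2 ^ (N1 * N1) * 2 ^ (2 ^ (((2 ^ N1 * 2 ^ N1) * (2 ^ N1 * 2 ^ N1)) * ((2 * 2) * (2 * 2))))) ^ N1 *
    (2 ^ (N2 * N2) * 2 ^ (2 ^ (((2 ^ N2 * 2 ^ N2) * (2 ^ N2 * 2 ^ N2)) * ((2 * 2) * (2 * 2))))) ^ N2))

noncomputable instance (N1 N2 : ℕ) : Fintype (FP k (Fin N1) (Fin N2)) := by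
  classical
  infer_instance

lemma card_FP (N1 N2 : ℕ) : Fintype.card (FP k (Fin N1) (Fin N2)) = hb k N1 N2 := by
  classical
  rw [← Nat.card_eq_fintype_card]
  simp [FP, Full, Tup, hb, Nat.card_prod, Nat.card_fun]

/-- The trace of a walk, most recent vertex first. -/
def trc (w : List (Lt k)) : List (Vx k) :=
  w.foldl (fun l a => stp l.headI a :: l) [[]]

lemma foldl_trc (w : List (Lt k)) : ∀ (x : Vx k) (l : List (Vx k)),
    w.foldl (fun l a => stp l.headI a :: l) (x :: l) = (vis x w).reverse ++ l := by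
  induction w with
  | nil => intro x l; simp
  | cons a w ih =>
    intro x l
    rw [List.foldl_cons, List.headI_cons, ih, vis_cons]
    simp

lemma mem_trc (w : List (Lt k)) (t : Vx k) : t ∈ trc w ↔ t ∈ vis [] w := by
  rw [trc, foldl_trc]
  simp

lemma foldl_trc_head (w : List (Lt k)) : ∀ (x : Vx k) (l : List (Vx k)),
    (w.foldl (fun l a => stp l.headI a :: l) (x :: l)).headI = pos x w := by
  induction w with
  | nil => intro x l; simp
  | cons a w ih =>
    intro x l
    rw [List.foldl_cons, List.headI_cons, ih, pos_cons]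

lemma head_trc (w : List (Lt k)) : (trc w).headI = pos [] w := foldl_trc_head w _ _

/-- Computable form of `Same`. -/
def SameC (w w' : List (Lt k)) : Prop :=
  ((∀ t ∈ trc w, t ∈ trc w') ∧ ∀ t ∈ trc w', t ∈ trc w) ∧ (trc w).headI = (trc w').headI

lemma sameC_iff (w w' : List (Lt k)) : SameC w w' ↔ Same w w' := by
  simp only [SameC, Same, mem_trc, head_trc]
  constructor
  · rintro ⟨⟨h1, h2⟩, h3⟩
    exact ⟨fun t => ⟨h1 t, h2 t⟩, h3⟩
  · rintro ⟨h1, h3⟩
    exact ⟨⟨fun t => (h1 t).1, fun t => (h1 t).2⟩, h3⟩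

/-- Length bound for a witness of non-inclusion. -/
def bound1 (p : Aut k × Aut k) : ℕ :=
  bd p.1 * ((words k (hb k (bd p.1) (bd p.2))).length *
    ((words k (hb k (bd p.1) (bd p.2))).length + 1))

/-- Length bound for an equivalent accepted word. -/
def bound2 (p : Aut k × Aut k) (w : List (Lt k)) : ℕ :=
  bd p.2 * ((w.length + 1) * (w.length + 1 + 1))

/-- The bounded check. -/
def Check (p : Aut k × Aut k) : Prop :=
  ∀ w ∈ words k (bound1 p), Acpt p.1 w →
    ∃ w' ∈ words k (bound2 p w), Acpt p.2 w' ∧ SameC w w'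

lemma vis_length (x w : List (Lt k)) : (vis x w).length = w.length + 1 := by
  induction w generalizing x with
  | nil => simp
  | cons a w ih => simp [ih]

theorem check_iff (p : Aut k × Aut k) :
    Check p ↔ ∀ w, (∃ f ∈ p.1.2.2, Run (tr p.1) p.1.2.1 w f) →
      ∃ w', (∃ f ∈ p.2.2.2, Run (tr p.2) p.2.2.1 w' f) ∧ Same w w' := by
  classical
  constructor
  · intro hc
    by_contra hcon
    push Not at hcon
    obtain ⟨w, hw, hw'⟩ := hcon
    rw [accF] at hw
    obtain ⟨f1, hf1, hrun1⟩ := hw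
    have h2 : ∀ w', Same w w' → ∀ f2 ∈ {f : Fin (bd p.2) | (f : ℕ) ∈ p.2.2.2},
        ¬ Run (trF p.2 (bd p.2)) ⟨p.2.2.1, start_lt_bd p.2⟩ w' f2 := by
      intro w' hs f2 hf2 hrun2
      exact hw' w' ((accF p.2 w').2 ⟨f2, hf2, hrun2⟩) hs
    obtain ⟨w1, r1, r2, r3⟩ := pump _ _ _ _ _ hrun1 h2
    rw [card_FP] at r3
    obtain ⟨w2, t1, t2, t3⟩ := short_run r1 ((words k (hb k (bd p.1) (bd p.2))).toFinset)
      (fun t ht => by
        rw [List.mem_toFinset]
        exact mem_words _ _ (r3 t ht))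
    have hlen : w2.length ≤ bound1 p := by
      refine t3.trans ?_
      rw [Fintype.card_fin]
      unfold bound1
      have := List.toFinset_card_le (words k (hb k (bd p.1) (bd p.2)))
      gcongr
    obtain ⟨w3, _, h4, h5⟩ := hc w2 (mem_words _ _ hlen)
      ((acpt_iff _ _).2 ((accF p.1 w2).2 ⟨f1, hf1, t1⟩))
    rw [acpt_iff, accF] at h4
    rw [sameC_iff] at h5
    obtain ⟨f2, hf2, hrun2⟩ := h4
    exact r2 w3 ⟨fun t => (t2.1 t).trans (h5.1 t), t2.2.trans h5.2⟩ f2 hf2 hrun2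
  · intro h w _ hw
    rw [acpt_iff] at hw
    obtain ⟨w', hw', hs⟩ := h w hw
    rw [accF] at hw'
    obtain ⟨f, hf, hrun⟩ := hw'
    obtain ⟨w2, t1, t2, t3⟩ := short_run hrun (vis [] w).toFinset (fun t ht => by
      rw [List.mem_toFinset]
      exact (hs.1 t).2 ht)
    refine ⟨w2, mem_words _ _ ?_, ?_, ?_⟩
    · refine t3.trans ?_
      rw [Fintype.card_fin]
      unfold bound2
      have := List.toFinset_card_le (vis [] w)
      rw [vis_length] at this
      gcongr
    · rw [acpt_iff, accF]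
      exact ⟨f, hf, t1⟩
    · rw [sameC_iff]
      exact ⟨fun t => (hs.1 t).trans (t2.1 t), hs.2.trans t2.2⟩

end Pool.Agent.FIM
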