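import Mathlib
import Pool.Agent.MP_61c0e4_al.Comp

set_option autoImplicit false
set_option linter.unusedSimpArgs false
set_option linter.unusedSectionVars false

/-! Primitive recursiveness of the bounded check. -/

namespace Pool.Agent.FIM

open Primrec

variable {k : ℕ}

lemma prim_iv : Primrec (iv : Lt k → Lt k) := Primrec.dom_finite _

lemma prim_stp : Primrec₂ (stp : Vx k → Lt k → Vx k) := by
  have h : Primrec (fun p : Vx k × Lt k =>
      (List.casesOn p.1 [p.2] (fun b x => if b = iv p.2 then x else p.2 :: b :: x) : Vx k)) := by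
    have h1 : Primrec₂ (fun (p : Vx k × Lt k) (q : Lt k × List (Lt k)) =>
        if q.1 = iv p.2 then q.2 else p.2 :: q.1 :: q.2) := by
      refine Primrec.ite ?_ ?_ ?_
      · exact Primrec.eq.comp (Primrec.fst.comp Primrec.snd)
          (prim_iv.comp (Primrec.snd.comp Primrec.fst))
      · exact Primrec.snd.comp Primrec.snd
      · exact Primrec.list_cons.comp (Primrec.snd.comp Primrec.fst)
          (Primrec.list_cons.comp (Primrec.fst.comp Primrec.snd) (Primrec.snd.comp Primrec.snd))
    exact Primrec.list_casesOn Primrec.fst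
      (Primrec.list_cons.comp Primrec.snd (Primrec.const [])) h1
  refine h.of_eq ?_
  rintro ⟨x, a⟩
  cases x with
  | nil => rfl
  | cons b x => rfl

lemma prim_trc : Primrec (trc : List (Lt k) → List (Vx k)) := by
  have h1 : Primrec₂ (fun (_ : List (Lt k)) (q : List (Vx k) × Lt k) =>
      stp q.1.headI q.2 :: q.1) := by
    refine Primrec.list_cons.comp ?_ (Primrec.fst.comp Primrec.snd)
    exact prim_stp.comp (Primrec.list_headI.comp (Primrec.fst.comp Primrec.snd))
      (Primrec.snd.comp Primrec.snd)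
  exact Primrec.list_foldl Primrec.id (Primrec.const [[]]) h1

lemma prim_mem {α : Type*} [Primcodable α] : PrimrecRel (fun (a : α) (l : List α) => a ∈ l) := by
  have h := (PrimrecRel.exists_mem_list (Primrec.eq (α := α))).swap
  refine h.of_eq ?_
  intro a l
  simp [Function.swap]

lemma prim_subset {α : Type*} [Primcodable α] :
    PrimrecRel (fun (l l' : List α) => ∀ a ∈ l, a ∈ l') :=
  PrimrecRel.forall_mem_list prim_mem

lemma prim_sameC : PrimrecRel (SameC : List (Lt k) → List (Lt k) → Prop) := by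
  have h1 : PrimrecRel (fun w w' : List (Lt k) => ∀ t ∈ trc w, t ∈ trc w') :=
    prim_subset.comp (prim_trc.comp Primrec.fst) (prim_trc.comp Primrec.snd)
  have h2 : PrimrecRel (fun w w' : List (Lt k) => ∀ t ∈ trc w', t ∈ trc w) :=
    prim_subset.comp (prim_trc.comp Primrec.snd) (prim_trc.comp Primrec.fst)
  have h3 : PrimrecRel (fun w w' : List (Lt k) => (trc w).headI = (trc w').headI) :=
    Primrec.eq.comp (Primrec.list_headI.comp (prim_trc.comp Primrec.fst))
      (Primrec.list_headI.comp (prim_trc.comp Primrec.snd))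
  exact (PrimrecPred.and (PrimrecPred.and h1 h2) h3)

lemma prim_nxt : Primrec (fun p : List (ℕ × Lt k × ℕ) × List ℕ × Lt k => nxt p.1 p.2.1 p.2.2) := by
  have h1 : Primrec₂ (fun (p : List (ℕ × Lt k × ℕ) × List ℕ × Lt k) (e : ℕ × Lt k × ℕ) =>
      if e.1 ∈ p.2.1 ∧ e.2.1 = p.2.2 then some e.2.2 else none) := by
    refine Primrec.ite ?_ ?_ (Primrec.const none)
    · refine PrimrecPred.and ?_ ?_
      · exact prim_mem.comp (Primrec.fst.comp Primrec.snd)
          (Primrec.fst.comp (Primrec.snd.comp Primrec.fst))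
      · exact Primrec.eq.comp (Primrec.fst.comp (Primrec.snd.comp Primrec.snd))
          (Primrec.snd.comp (Primrec.snd.comp Primrec.fst))
    · exact Primrec.option_some.comp (Primrec.snd.comp (Primrec.snd.comp Primrec.snd))
  exact Primrec.listFilterMap Primrec.fst h1

lemma prim_acpt : PrimrecRel (Acpt : Aut k → List (Lt k) → Prop) := by
  have h1 : Primrec (fun p : Aut k × List (Lt k) => p.2.foldl (nxt p.1.1) [p.1.2.1]) := by
    have h0 : Primrec₂ (fun (p : Aut k × List (Lt k)) (q : List ℕ × Lt k) =>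
        nxt p.1.1 q.1 q.2) :=
      prim_nxt.comp (Primrec.pair (Primrec.fst.comp (Primrec.fst.comp Primrec.fst))
        (Primrec.snd))
    exact Primrec.list_foldl Primrec.snd
      (Primrec.list_cons.comp (Primrec.fst.comp (Primrec.snd.comp Primrec.fst))
        (Primrec.const [])) h0
  have h2 : PrimrecRel (fun (l l' : List ℕ) => ∃ q ∈ l, q ∈ l') :=
    PrimrecRel.exists_mem_list prim_mem
  exact h2.comp h1 (Primrec.snd.comp (Primrec.snd.comp Primrec.fst))

lemma prim_bd : Primrec (bd : Aut k → ℕ) := by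
  have h1 : Primrec₂ (fun (_ : Aut k) (q : ℕ × (ℕ × Lt k × ℕ)) => q.1 + q.2.1 + q.2.2.2) :=
    Primrec.nat_add.comp (Primrec.nat_add.comp (Primrec.fst.comp Primrec.snd)
      (Primrec.fst.comp (Primrec.snd.comp Primrec.snd)))
      (Primrec.snd.comp (Primrec.snd.comp (Primrec.snd.comp Primrec.snd)))
  exact Primrec.succ.comp
    (Primrec.list_foldl Primrec.fst (Primrec.fst.comp Primrec.snd) h1)

lemma prim_words : Primrec (words k) := by
  have h : Primrec (fun n : ℕ => (Nat.rec [[]] (fun _ l => [] :: (l : List (List (Lt k))).flatMap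
      (fun w => (letters k).map (fun a => a :: w))) n : List (List (Lt k)))) := by
    have h2 : Primrec₂ (fun (_ : ℕ × List (List (Lt k))) (w : List (Lt k)) =>
        (letters k).map (fun a => a :: w)) := by
      have h3 : Primrec₂ (fun (q : (ℕ × List (List (Lt k))) × List (Lt k)) (a : Lt k) =>
          a :: q.2) :=
        Primrec.list_cons.comp Primrec.snd (Primrec.snd.comp Primrec.fst)
      exact Primrec.list_map (Primrec.const (letters k)) h3
    refine Primrec.nat_rec₁ _ ?_
    exact Primrec.list_cons.comp (Primrec.const []) (Primrec.list_flatMap Primrec.snd h2)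
  refine h.of_eq ?_
  intro n
  induction n with
  | zero => rfl
  | succ n ih => simp only [words]; rw [← ih]

lemma prim_pow : Primrec₂ (fun a b : ℕ => a ^ b) := Primrec₂.unpaired'.1 Nat.Primrec.pow

lemma prim_hb : Primrec₂ (hb k) := by
  have two : ∀ {f : ℕ × ℕ → ℕ}, Primrec f → Primrec (fun p => 2 ^ f p) := fun hf =>
    prim_pow.comp (Primrec.const 2) hf
  have mul : ∀ {f g : ℕ × ℕ → ℕ}, Primrec f → Primrec g → Primrec (fun p => f p * g p) :=
    fun hf hg => Primrec.nat_mul.comp hf hg
  have c : ∀ n : ℕ, Primrec (fun _ : ℕ × ℕ => n) := fun n => Primrec.const n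
  have F : ∀ {f : ℕ × ℕ → ℕ}, Primrec f → Primrec (fun p =>
      (2 ^ (f p * f p) * 2 ^ (2 ^ (((2 ^ f p * 2 ^ f p) * (2 ^ f p * 2 ^ f p)) *
        ((2 * 2) * (2 * 2))))) ^ f p) := by
    intro f hf
    exact prim_pow.comp (mul (two (mul hf hf)) (two (two (mul (mul (mul (two hf) (two hf))
      (mul (two hf) (two hf))) (c ((2 * 2) * (2 * 2))))))) hf
  exact mul (mul (c k) (c 2)) (mul (c 2) (mul (F Primrec.fst) (F Primrec.snd)))

lemma prim_bound1 : Primrec (bound1 : Aut k × Aut k → ℕ) := by
  have h1 : Primrec (fun p : Aut k × Aut k => (words k (hb k (bd p.1) (bd p.2))).length) :=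
    Primrec.list_length.comp (prim_words.comp (prim_hb.comp (prim_bd.comp Primrec.fst)
      (prim_bd.comp Primrec.snd)))
  exact Primrec.nat_mul.comp (prim_bd.comp Primrec.fst)
    (Primrec.nat_mul.comp h1 (Primrec.succ.comp h1))

lemma prim_bound2 : Primrec₂ (bound2 : Aut k × Aut k → List (Lt k) → ℕ) := by
  have h1 : Primrec (fun p : (Aut k × Aut k) × List (Lt k) => p.2.length + 1) :=
    Primrec.succ.comp (Primrec.list_length.comp Primrec.snd)
  exact Primrec.nat_mul.comp (prim_bd.comp (Primrec.snd.comp Primrec.fst))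
    (Primrec.nat_mul.comp h1 (Primrec.succ.comp h1))

theorem prim_check : PrimrecPred (Check : Aut k × Aut k → Prop) := by
  have h1 : PrimrecRel (fun (w' : List (Lt k)) (q : List (Lt k) × (Aut k × Aut k)) =>
      Acpt q.2.2 w' ∧ SameC q.1 w') := by
    refine PrimrecPred.and ?_ ?_
    · exact prim_acpt.comp (Primrec.snd.comp (Primrec.snd.comp Primrec.snd)) Primrec.fst
    · exact prim_sameC.comp (Primrec.fst.comp Primrec.snd) Primrec.fst
  have h2 : PrimrecRel (fun (w : List (Lt k)) (p : Aut k × Aut k) =>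
      ∃ w' ∈ words k (bound2 p w), Acpt p.2 w' ∧ SameC w w') :=
    (PrimrecRel.exists_mem_list h1).comp
      (prim_words.comp (prim_bound2.comp Primrec.snd Primrec.fst)) Primrec.id
  have h3 : PrimrecRel (fun (w : List (Lt k)) (p : Aut k × Aut k) =>
      Acpt p.1 w → ∃ w' ∈ words k (bound2 p w), Acpt p.2 w' ∧ SameC w w') := by
    have h4 : PrimrecRel (fun (w : List (Lt k)) (p : Aut k × Aut k) => Acpt p.1 w) :=
      prim_acpt.comp (Primrec.fst.comp Primrec.snd) Primrec.fst
    have h5 : PrimrecPred (fun q : List (Lt k) × (Aut k × Aut k) =>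
        ¬ Acpt q.2.1 q.1 ∨ ∃ w' ∈ words k (bound2 q.2 q.1), Acpt q.2.2 w' ∧ SameC q.1 w') :=
      PrimrecPred.or (PrimrecPred.not h4) h2
    have h6 : PrimrecPred (fun q : List (Lt k) × (Aut k × Aut k) =>
        Acpt q.2.1 q.1 → ∃ w' ∈ words k (bound2 q.2 q.1), Acpt q.2.2 w' ∧ SameC q.1 w') :=
      h5.of_eq (fun q => (imp_iff_not_or).symm)
    exact h6
  exact (PrimrecRel.forall_mem_list h3).comp (prim_words.comp prim_bound1) Primrec.id

end Pool.Agent.FIM
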