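import Mathlib
import Pool.Agent.MP_61c0e4_al.Prim

set_option autoImplicit false

/-! Equality of rational subsets of the free inverse monoid of rank `k` is decidable. -/

namespace Pool.Agent.FIM.Equality

/-- A letter `(i, b)`: the generator `i` if `b = true`, its formal inverse if `b = false`. -/
abbrev Letter (k : ℕ) := Fin k × Bool

/-- The formal inverse of a word of the free monoid on the letters. -/
def inv {k : ℕ} (u : FreeMonoid (Letter k)) : FreeMonoid (Letter k) :=
  FreeMonoid.ofList (((FreeMonoid.toList u).map (fun x => (x.1, !x.2))).reverse)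

/-- The generating relations `u u⁻¹ u ∼ u` and `u u⁻¹ v v⁻¹ ∼ v v⁻¹ u u⁻¹`. -/
def Vagner (k : ℕ) (a b : FreeMonoid (Letter k)) : Prop :=
  (∃ u, a = u * inv u * u ∧ b = u) ∨
  (∃ u v, a = u * inv u * v * inv v ∧ b = v * inv v * u * inv u)

/-- The free inverse monoid of rank `k`. -/
abbrev FreeInverseMonoid (k : ℕ) := (conGen (Vagner k)).Quotient

/-- Finite automata over the letters: transitions, initial state, final states. -/
abbrev Automaton (k : ℕ) := List (ℕ × Letter k × ℕ) × ℕ × List ℕ

/-- The automaton `A` accepts the word `w` along some sequence of states. -/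
def Accepts {k : ℕ} (A : Automaton k) (w : List (Letter k)) : Prop :=
  ∃ s : List ℕ, s.length = w.length + 1 ∧ s.getD 0 0 = A.2.1 ∧ s.getD w.length 0 ∈ A.2.2 ∧
    ∀ (i : ℕ) (a : Letter k), w[i]? = some a → (s.getD i 0, a, s.getD (i + 1) 0) ∈ A.1

/-- The rational subset of the free inverse monoid given by an automaton. -/
def rationalSubset {k : ℕ} (A : Automaton k) : Set (FreeInverseMonoid k) :=
  {m | ∃ w : List (Letter k), Accepts A w ∧
    ((FreeMonoid.ofList w : FreeMonoid (Letter k)) : FreeInverseMonoid k) = m}

lemma subset_iff {k : ℕ} (p : Automaton k × Automaton k) :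
    Pool.Agent.FIM.Check p ↔ rationalSubset p.1 ⊆ rationalSubset p.2 := by
  rw [Pool.Agent.FIM.check_iff]
  constructor
  · rintro h m ⟨w, hw, rfl⟩
    obtain ⟨w', h1, h2⟩ := h w ((Pool.Agent.FIM.accept_iff p.1 w).1 hw)
    refine ⟨w', (Pool.Agent.FIM.accept_iff p.2 w').2 h1, ?_⟩
    rw [Con.eq]
    exact (conGen (Vagner k)).symm ((Pool.Agent.FIM.conGen_iff_same w w').2 h2)
  · intro h w hw
    obtain ⟨w', h1, h2⟩ := h ⟨w, (Pool.Agent.FIM.accept_iff p.1 w).2 hw, rfl⟩
    refine ⟨w', (Pool.Agent.FIM.accept_iff p.2 w').1 h1, ?_⟩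
    rw [Con.eq] at h2
    exact (Pool.Agent.FIM.conGen_iff_same w w').1 ((conGen (Vagner k)).symm h2)

/-- For every `k` there is an algorithm that, given two finite automata over the `k` generators
and their inverses, decides whether they define the same rational subset of the free inverse
monoid of rank `k`. -/
theorem equality_decidable (k : ℕ) :
    ComputablePred (fun p : Automaton k × Automaton k =>
      rationalSubset p.1 = rationalSubset p.2) := by
  have h1 : PrimrecPred (fun p : Automaton k × Automaton k =>
      Pool.Agent.FIM.Check p ∧ Pool.Agent.FIM.Check (p.2, p.1)) :=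
    PrimrecPred.and Pool.Agent.FIM.prim_check
      (Pool.Agent.FIM.prim_check.comp (Primrec.pair Primrec.snd Primrec.fst))
  refine h1.computablePred.of_eq ?_
  intro p
  rw [subset_iff, subset_iff]
  exact Set.Subset.antisymm_iff.symm

end Pool.Agent.FIM.Equality
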