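import Pool.Agent.MP_61c0e4_al.Prim

set_option autoImplicit false


namespace Pool.Agent.FIM.Inclusion

/-- For every k ≥ 2 there is an algorithm that, given two finite automata over k letters and their inverses, decides whether the image of the first language in the free inverse monoid is contained in the image of the second. -/
theorem inclusion_decidable :
    ∀ k : ℕ, 2 ≤ k →
      ComputablePred
        (fun p : (List (ℕ × (Fin k × Bool) × ℕ) × ℕ × List ℕ) ×
            (List (ℕ × (Fin k × Bool) × ℕ) × ℕ × List ℕ) =>
          ∀ w : List (Fin k × Bool),
            (∃ s : List ℕ, s.length = w.length + 1 ∧ s.getD 0 0 = p.1.2.1 ∧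
              s.getD w.length 0 ∈ p.1.2.2 ∧
              ∀ (i : ℕ) (a : Fin k × Bool), w[i]? = some a →
                (s.getD i 0, a, s.getD (i + 1) 0) ∈ p.1.1) →
            ∃ w' : List (Fin k × Bool),
              (∃ s : List ℕ, s.length = w'.length + 1 ∧ s.getD 0 0 = p.2.2.1 ∧
                s.getD w'.length 0 ∈ p.2.2.2 ∧
                ∀ (i : ℕ) (a : Fin k × Bool), w'[i]? = some a →
                  (s.getD i 0, a, s.getD (i + 1) 0) ∈ p.2.1) ∧
              conGen
                (fun a b : FreeMonoid (Fin k × Bool) =>
                  (∃ u : FreeMonoid (Fin k × Bool),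
                    a = u * FreeMonoid.ofList
                          (((FreeMonoid.toList u).map (fun x => (x.1, !x.2))).reverse) * u ∧
                    b = u) ∨
                  (∃ u v : FreeMonoid (Fin k × Bool),
                    a = u * FreeMonoid.ofList
                          (((FreeMonoid.toList u).map (fun x => (x.1, !x.2))).reverse) *
                        v * FreeMonoid.ofList
                          (((FreeMonoid.toList v).map (fun x => (x.1, !x.2))).reverse) ∧
                    b = v * FreeMonoid.ofList
                          (((FreeMonoid.toList v).map (fun x => (x.1, !x.2))).reverse) *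
                        u * FreeMonoid.ofList
                          (((FreeMonoid.toList u).map (fun x => (x.1, !x.2))).reverse)))
                (FreeMonoid.ofList w) (FreeMonoid.ofList w')) := by
  intro k _
  refine (Pool.Agent.FIM.prim_check (k := k)).computablePred.of_eq ?_
  intro p
  rw [Pool.Agent.FIM.check_iff]
  constructor
  · intro h w hw
    obtain ⟨w', h1, h2⟩ := h w ((Pool.Agent.FIM.accept_iff p.1 w).1 hw)
    exact ⟨w', (Pool.Agent.FIM.accept_iff p.2 w').2 h1,
      (Pool.Agent.FIM.conGen_iff_same w w').2 h2⟩
  · intro h w hw
    obtain ⟨w', h1, h2⟩ := h w ((Pool.Agent.FIM.accept_iff p.1 w).2 hw)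
    exact ⟨w', (Pool.Agent.FIM.accept_iff p.2 w').1 h1,
      (Pool.Agent.FIM.conGen_iff_same w w').1 h2⟩

end Pool.Agent.FIM.Inclusion
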