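import Mathlib
import Pool.Agent.MP_61c0e4_al.Pump

set_option autoImplicit false
set_option linter.unusedSimpArgs false
set_option linter.unusedSectionVars false

/-! Usages of a region by a covering walk: a sharper replacement lemma with exponentially many
types for one walk and doubly exponentially many types for an automaton. -/

namespace Pool.Agent.FIM

open Relation

variable {k : ℕ} {Q : Type*}

/-- `Trace E T c V d`: there is a walk from `c` to `d` in the region `T` and `V` is the set of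
configurations it visits. -/
inductive Trace (E : Set (Q × Lt k × Q)) (T : Set (Vx k)) :
    Q × Vx k → Set (Q × Vx k) → Q × Vx k → Prop
  | nil (c : Q × Vx k) : c.2 ∈ T → Trace E T c {c} c
  | cons {c c' d : Q × Vx k} {V : Set (Q × Vx k)} :
      Edge E T c c' → Trace E T c' V d → Trace E T c (insert c V) d

section TraceBasics

variable {E : Set (Q × Lt k × Q)} {T : Set (Vx k)}

lemma Trace.start_mem {c d : Q × Vx k} {V : Set (Q × Vx k)} (h : Trace E T c V d) : c ∈ V := by
  cases h with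
  | nil => rfl
  | cons => exact Set.mem_insert _ _

lemma Trace.end_mem {c d : Q × Vx k} {V : Set (Q × Vx k)} (h : Trace E T c V d) : d ∈ V := by
  induction h with
  | nil => rfl
  | cons _ _ ih => exact Set.mem_insert_of_mem _ ih

lemma Trace.sub {c d : Q × Vx k} {V : Set (Q × Vx k)} (h : Trace E T c V d) :
    ∀ y ∈ V, y.2 ∈ T := by
  induction h with
  | nil c hc => rintro y rfl; exact hc
  | cons he _ ih =>
    rintro y (rfl | hy)
    · obtain ⟨_, _, _, h3, _⟩ := he
      exact h3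
    · exact ih y hy

lemma Trace.end_in {c d : Q × Vx k} {V : Set (Q × Vx k)} (h : Trace E T c V d) : d.2 ∈ T :=
  h.sub _ h.end_mem

lemma Trace.mono {S : Set (Vx k)} (hST : T ⊆ S) {c d : Q × Vx k} {V : Set (Q × Vx k)}
    (h : Trace E T c V d) : Trace E S c V d := by
  induction h with
  | nil c hc => exact Trace.nil c (hST hc)
  | cons he _ ih => exact Trace.cons (he.mono hST) ih

lemma Trace.append {c d e : Q × Vx k} {V W : Set (Q × Vx k)} (h : Trace E T c V d)
    (h' : Trace E T d W e) : Trace E T c (V ∪ W) e := by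
  induction h with
  | nil c hc =>
    have : ({c} ∪ W : Set (Q × Vx k)) = W := by
      rw [Set.singleton_union, Set.insert_eq_of_mem h'.start_mem]
    rw [this]
    exact h'
  | cons he _ ih =>
    rw [Set.insert_union]
    exact Trace.cons he (ih h')

lemma Trace.bounds {c d : Q × Vx k} {V : Set (Q × Vx k)} (h : Trace E T c V d) :
    ∀ y ∈ V, Rch E T c y ∧ Rch E T y d := by
  induction h with
  | nil c hc => rintro y rfl; exact ⟨ReflTransGen.refl, ReflTransGen.refl⟩
  | @cons c c' d V he h ih =>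
    rintro y (rfl | hy)
    · exact ⟨ReflTransGen.refl, (ReflTransGen.single he).trans (ih _ h.start_mem).2⟩
    · exact ⟨(ReflTransGen.single he).trans (ih y hy).1, (ih y hy).2⟩

lemma Trace.rch {c d : Q × Vx k} {V : Set (Q × Vx k)} (h : Trace E T c V d) : Rch E T c d :=
  (h.bounds _ h.end_mem).1

lemma Trace.comparable {c d : Q × Vx k} {V : Set (Q × Vx k)} (h : Trace E T c V d) :
    ∀ y ∈ V, ∀ z ∈ V, Rch E T y z ∨ Rch E T z y := by
  induction h with
  | nil c hc => rintro y rfl z rfl; exact Or.inl ReflTransGen.refl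
  | @cons c c' d V he h ih =>
    rintro y (rfl | hy) z (rfl | hz)
    · exact Or.inl ReflTransGen.refl
    · exact Or.inl ((ReflTransGen.single he).trans (h.bounds z hz).1)
    · exact Or.inr ((ReflTransGen.single he).trans (h.bounds y hy).1)
    · exact ih y hy z hz

lemma exists_trace_of_rch {c d : Q × Vx k} (h : Rch E T c d) (hc : c.2 ∈ T) :
    ∃ V, Trace E T c V d := by
  induction h using ReflTransGen.head_induction_on with
  | refl => exact ⟨_, Trace.nil _ hc⟩
  | @head c b hcb _ ih =>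
    have hb : b.2 ∈ T := by obtain ⟨_, _, _, _, h4⟩ := hcb; exact h4
    obtain ⟨V, hV⟩ := ih hb
    exact ⟨_, Trace.cons hcb hV⟩

lemma trace_of_run {p r : Q} {w : List (Lt k)} (h : Run E p w r) :
    ∀ x : Vx k, (∀ t ∈ vis x w, t ∈ T) →
      ∃ V, Trace E T (p, x) V (r, pos x w) ∧ ∀ t, t ∈ vis x w ↔ ∃ q, (q, t) ∈ V := by
  induction h with
  | nil p =>
    intro x hx
    refine ⟨_, Trace.nil (p, x) (hx x (by simp)), ?_⟩
    intro t
    simp only [vis_nil, List.mem_singleton, Set.mem_singleton_iff, Prod.mk.injEq]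
    constructor
    · rintro rfl; exact ⟨p, rfl, rfl⟩
    · rintro ⟨_, _, h⟩; exact h
  | @cons p a q w r he h ih =>
    intro x hx
    obtain ⟨V, hV, hV'⟩ := ih (stp x a) (fun t ht => hx t (by simp [ht]))
    refine ⟨insert (p, x) V, Trace.cons ⟨a, he, rfl, hx x (by simp), hx _ (by
      simp [start_mem_vis])⟩ hV, ?_⟩
    intro t
    rw [vis_cons, List.mem_cons, hV']
    constructor
    · rintro (rfl | ⟨q', hq'⟩)
      · exact ⟨p, Set.mem_insert _ _⟩
      · exact ⟨q', Set.mem_insert_of_mem _ hq'⟩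
    · rintro ⟨q', hq' | hq'⟩
      · left
        exact (congrArg Prod.snd hq' : _)
      · exact Or.inr ⟨q', hq'⟩

end TraceBasics

/-- Acceptance of a region with an end marker. -/
def Acc (E : Set (Q × Lt k × Q)) (T : Set (Vx k)) (s : Q) (e : Set (Q × Vx k)) : Prop :=
  ∃ c ∈ e, Cov E T s c.2 c.1

lemma trace_of_acc {E : Set (Q × Lt k × Q)} {T : Set (Vx k)} {s : Q} {e : Set (Q × Vx k)}
    (h : Acc E T s e) : ∃ V, ∃ d ∈ e, Trace E T (s, []) V d ∧ ∀ t ∈ T, ∃ q, (q, t) ∈ V := by
  obtain ⟨c, hc, w, h1, h2, h3⟩ := h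
  obtain ⟨V, hV, hV'⟩ := trace_of_run (T := T) h1 [] (fun t ht => (h3 t).1 ht)
  rw [h2] at hV
  exact ⟨V, c, hc, hV, fun t ht => (hV' t).1 ((h3 t).2 ht)⟩

/-- A trace together with vertices which are covered in its strong components. -/
lemma acc_of_trace {E : Set (Q × Lt k × Q)} {T : Set (Vx k)} (hT : T.Finite) {s : Q}
    {e : Set (Q × Vx k)} {V : Set (Q × Vx k)} {d : Q × Vx k} (hd : d ∈ e)
    (h : Trace E T (s, []) V d)
    (hcov : ∀ t ∈ T, ∃ q, ∃ y ∈ V, Rch E T y (q, t) ∧ Rch E T (q, t) y) : Acc E T s e := by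
  refine ⟨d, hd, cov_of_accP hT ?_⟩
  refine ⟨{c | c.2 ∈ T ∧ ∃ y ∈ V, Rch E T y c ∧ Rch E T c y}, fun c hc => hc.1, ?_, ?_, ?_, ?_, ?_⟩
  · intro t ht
    obtain ⟨q, y, hy, h1, h2⟩ := hcov t ht
    exact ⟨q, ht, y, hy, h1, h2⟩
  · exact ⟨h.sub _ h.start_mem, _, h.start_mem, ReflTransGen.refl, ReflTransGen.refl⟩
  · exact ⟨h.end_in, _, h.end_mem, ReflTransGen.refl, ReflTransGen.refl⟩
  · rintro c ⟨_, y, hy, h1, h2⟩ c' ⟨_, y', hy', h1', h2'⟩
    rcases h.comparable y hy y' hy' with h3 | h3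
    · exact Or.inl ((h2.trans h3).trans h1')
    · exact Or.inr ((h2'.trans h3).trans h1)
  · rintro c ⟨_, y, hy, h1, h2⟩
    exact ⟨(h.bounds y hy).1.trans h1, h2.trans (h.bounds y hy).2⟩

/-- Usage of a region: pairs of states which may be used freely, and excursions which are used
at most once. -/
abbrev Usg (Q : Type*) := Set (Q × Q) × Set (Q × Option Q)

/-- Targets of an excursion. -/
def tgt (v : Vx k) (e : Set (Q × Vx k)) : Option Q → Set (Q × Vx k)
  | some b => {(b, v)}
  | none => e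

/-- Excursions. -/
def Exc (E : Set (Q × Lt k × Q)) (D : Set (Vx k)) (v : Vx k) (e : Set (Q × Vx k))
    (x : Q × Option Q) (V : Set (Q × Vx k)) : Prop :=
  ∃ c ∈ tgt v e x.2, Trace E D (x.1, v) V c

/-- Vertices covered by free excursions. -/
def Fr (E : Set (Q × Lt k × Q)) (D : Set (Vx k)) (v : Vx k) (L : Set (Q × Q)) (t : Vx k) : Prop :=
  ∃ ab ∈ L, ∃ q, Rch E D (ab.1, v) (q, t) ∧ Rch E D (q, t) (ab.2, v)

/-- The region `D` can be covered with the usage `us`. -/
def Covers (E : Set (Q × Lt k × Q)) (D : Set (Vx k)) (v : Vx k) (e : Set (Q × Vx k))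
    (us : Usg Q) : Prop :=
  ∃ φ : Q × Option Q → Set (Q × Vx k), (∀ x ∈ us.2, Exc E D v e x (φ x)) ∧
    ∀ t ∈ D, Fr E D v us.1 t ∨ ∃ x ∈ us.2, ∃ q, (q, t) ∈ φ x

section Decomp

variable (E : Set (Q × Lt k × Q)) (C D : Set (Vx k)) (v : Vx k) (e : Set (Q × Vx k))

/-- Decomposition of a walk from the base vertex into excursions. -/
inductive Dec : Q → Set (Q × Vx k) → Prop
  | endD {p : Q} {V : Set (Q × Vx k)} {c : Q × Vx k} : c ∈ e → Trace E D (p, v) V c → Dec p V
  | endC {p : Q} {V : Set (Q × Vx k)} {c : Q × Vx k} :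
      c ∈ e → c.2 ∉ D → Trace E C (p, v) V c → Dec p V
  | stepD {p r : Q} {V W : Set (Q × Vx k)} :
      Trace E D (p, v) V (r, v) → Dec r W → Dec p (V ∪ W)
  | stepC {p r : Q} {V W : Set (Q × Vx k)} :
      Trace E C (p, v) V (r, v) → Dec r W → Dec p (V ∪ W)

variable {E C D v e}
variable (hvC : v ∈ C) (hvD : v ∈ D) (hCD : ∀ t ∈ C, t ∈ D → t = v)
  (hE : ∀ c d, Edge E (C ∪ D) c d → Edge E C c d ∨ Edge E D c d)

include hvC hvD hCD hE in
lemma exists_dec {c d : Q × Vx k} {V : Set (Q × Vx k)} (h : Trace E (C ∪ D) c V d)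
    (hd : d ∈ e) :
    (c.2 ∈ C → (∃ V0, Trace E C c V0 d ∧ V ⊆ V0 ∧ d.2 ∉ D ∧ ∀ y ∈ V, y.2 ≠ v) ∨
      ∃ V0 r V1, Trace E C c V0 (r, v) ∧ Dec E C D v e r V1 ∧ V ⊆ V0 ∪ V1) ∧
    (c.2 ∈ D → (∃ V0, Trace E D c V0 d ∧ V ⊆ V0) ∨
      ∃ V0 r V1, Trace E D c V0 (r, v) ∧ Dec E C D v e r V1 ∧ V ⊆ V0 ∪ V1) := by
  induction h with
  | nil c hc =>
    constructor
    · intro hC
      by_cases hD : c.2 ∈ D
      · right
        have hv := hCD _ hC hD
        obtain ⟨p, x⟩ := c
        simp only at hv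
        subst hv
        exact ⟨{(p, x)}, p, {(p, x)}, Trace.nil _ hC, Dec.endD hd (Trace.nil _ hD),
          Set.subset_union_left⟩
      · left
        refine ⟨{c}, Trace.nil c hC, subset_rfl, hD, ?_⟩
        rintro y rfl h
        exact hD (h ▸ hvD)
    · intro hD
      exact Or.inl ⟨{c}, Trace.nil c hD, subset_rfl⟩
  | @cons c c' d V hs h ih =>
    have ih := ih hd
    rcases hE _ _ hs with hs | hs
    · -- the first edge is in `C`
      have hcC : c.2 ∈ C := by obtain ⟨_, _, _, h3, _⟩ := hs; exact h3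
      have hcC' : c'.2 ∈ C := by obtain ⟨_, _, _, _, h4⟩ := hs; exact h4
      have key : (∃ V0, Trace E C c V0 d ∧ insert c V ⊆ V0 ∧ d.2 ∉ D ∧ ∀ y ∈ V, y.2 ≠ v) ∨
          ∃ V0 r V1, Trace E C c V0 (r, v) ∧ Dec E C D v e r V1 ∧ insert c V ⊆ V0 ∪ V1 := by
        rcases ih.1 hcC' with ⟨V0, h1, h2, h3, h4⟩ | ⟨V0, r, V1, h1, h2, h3⟩
        · exact Or.inl ⟨_, Trace.cons hs h1, Set.insert_subset_insert h2, h3, h4⟩
        · refine Or.inr ⟨_, r, V1, Trace.cons hs h1, h2, ?_⟩
          rw [Set.insert_union]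
          exact Set.insert_subset_insert h3
      by_cases hcv : c.2 = v
      · -- at the base vertex
        obtain ⟨p, x⟩ := c
        simp only at hcv
        subst hcv
        have hdec : ∃ V1, Dec E C D x e p V1 ∧ insert (p, x) V ⊆ V1 := by
          rcases key with ⟨V0, h1, h2, h3, _⟩ | ⟨V0, r, V1, h1, h2, h3⟩
          · exact ⟨V0, Dec.endC hd h3 h1, h2⟩
          · exact ⟨_, Dec.stepC h1 h2, h3⟩
        obtain ⟨V1, h1, h2⟩ := hdec
        constructor
        · intro _
          exact Or.inr ⟨{(p, x)}, p, V1, Trace.nil _ hvC, h1, h2.trans Set.subset_union_right⟩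
        · intro _
          exact Or.inr ⟨{(p, x)}, p, V1, Trace.nil _ hvD, h1, h2.trans Set.subset_union_right⟩
      · constructor
        · intro _
          rcases key with ⟨V0, h1, h2, h3, h4⟩ | h
          · refine Or.inl ⟨V0, h1, h2, h3, ?_⟩
            rintro y (rfl | hy)
            · exact hcv
            · exact h4 y hy
          · exact Or.inr h
        · intro hD
          exact absurd (hCD _ hcC hD) hcv
    · -- the first edge is in `D`
      have hcD : c.2 ∈ D := by obtain ⟨_, _, _, h3, _⟩ := hs; exact h3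
      have hcD' : c'.2 ∈ D := by obtain ⟨_, _, _, _, h4⟩ := hs; exact h4
      have key : (∃ V0, Trace E D c V0 d ∧ insert c V ⊆ V0) ∨
          ∃ V0 r V1, Trace E D c V0 (r, v) ∧ Dec E C D v e r V1 ∧ insert c V ⊆ V0 ∪ V1 := by
        rcases ih.2 hcD' with ⟨V0, h1, h2⟩ | ⟨V0, r, V1, h1, h2, h3⟩
        · exact Or.inl ⟨_, Trace.cons hs h1, Set.insert_subset_insert h2⟩
        · refine Or.inr ⟨_, r, V1, Trace.cons hs h1, h2, ?_⟩
          rw [Set.insert_union]
          exact Set.insert_subset_insert h3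
      refine ⟨?_, fun _ => key⟩
      intro hC
      have hv := hCD _ hC hcD
      obtain ⟨p, x⟩ := c
      simp only at hv
      subst hv
      right
      rcases key with ⟨V0, h1, h2⟩ | ⟨V0, r, V1, h1, h2, h3⟩
      · exact ⟨{(p, x)}, p, V0, Trace.nil _ hvC, Dec.endD hd h1,
          h2.trans Set.subset_union_right⟩
      · exact ⟨{(p, x)}, p, _, Trace.nil _ hvC, Dec.stepD h1 h2,
          h3.trans Set.subset_union_right⟩

/-- Free pairs given by a set of states visited at the base vertex. -/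
def EZ (E : Set (Q × Lt k × Q)) (T : Set (Vx k)) (v : Vx k) (Z : Set Q) : Set (Q × Q) :=
  {ab | ∃ z ∈ Z, Rch E T (z, v) (ab.1, v) ∧ Rch E T (ab.2, v) (z, v)}

lemma Fr.mono {E : Set (Q × Lt k × Q)} {D : Set (Vx k)} {v t : Vx k} {L L' : Set (Q × Q)}
    (h : L ⊆ L') (ht : Fr E D v L t) : Fr E D v L' t := by
  obtain ⟨ab, h1, h2⟩ := ht
  exact ⟨ab, h h1, h2⟩

lemma EZ_mono {E : Set (Q × Lt k × Q)} {T : Set (Vx k)} {v : Vx k} {Z Z' : Set Q}
    (h : Z ⊆ Z') : EZ E T v Z ⊆ EZ E T v Z' := by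
  rintro ab ⟨z, hz, h1⟩
  exact ⟨z, h hz, h1⟩

lemma base_fr {E : Set (Q × Lt k × Q)} {T D : Set (Vx k)} {v : Vx k} {Z : Set Q} {p : Q}
    (hp : p ∈ Z) : Fr E D v (EZ E T v Z) v :=
  ⟨(p, p), ⟨p, hp, ReflTransGen.refl, ReflTransGen.refl⟩, p, ReflTransGen.refl,
    ReflTransGen.refl⟩

/-- The usage of a decomposed walk and its transfer to another region. -/
lemma usage_of_dec {p : Q} {V : Set (Q × Vx k)} (hCD : ∀ t ∈ C, t ∈ D → t = v)
    (h : Dec E C D v e p V) :
    ∃ (Z : Set Q) (X : Set (Q × Option Q)) (φ : Q × Option Q → Set (Q × Vx k)),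
      p ∈ Z ∧ (∀ z ∈ Z, Rch E (C ∪ D) (p, v) (z, v)) ∧ (∀ x ∈ X, x.1 ∈ Z) ∧
      (∀ x ∈ X, Exc E D v e x (φ x)) ∧
      (∀ c ∈ V, c.2 ∈ D → Fr E D v (EZ E (C ∪ D) v Z) c.2 ∨ ∃ x ∈ X, ∃ q, (q, c.2) ∈ φ x) ∧
      ∀ (D' : Set (Vx k)) (e' : Set (Q × Vx k)) (φ' : Q × Option Q → Set (Q × Vx k)),
        v ∈ D' → (∀ a b, Rch E D (a, v) (b, v) → Rch E D' (a, v) (b, v)) →
        (∀ c ∈ e, c.2 ∉ D → c ∈ e') → (∀ x ∈ X, Exc E D' v e' x (φ' x)) →
        ∃ V' d', d' ∈ e' ∧ Trace E (C ∪ D') (p, v) V' d' ∧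
          (∀ c ∈ V, c.2 ∈ C → ∃ q, (q, c.2) ∈ V') ∧ (∀ x ∈ X, φ' x ⊆ V') ∧
          ∀ z ∈ Z, (z, v) ∈ V' := by
  classical
  induction h with
  | @endD p V c hc h =>
    refine ⟨{p}, {(p, none)}, fun _ => V, rfl, ?_, ?_, ?_, ?_, ?_⟩
    · rintro z rfl; exact ReflTransGen.refl
    · rintro x rfl; rfl
    · rintro x rfl
      exact ⟨c, hc, h⟩
    · intro c hc _
      exact Or.inr ⟨(p, none), rfl, c.1, hc⟩
    · intro D' e' φ' _ _ _ hφ'
      obtain ⟨d', hd', ht⟩ := hφ' (p, none) rfl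
      refine ⟨φ' (p, none), d', hd', ht.mono Set.subset_union_right, ?_, ?_, ?_⟩
      · intro c hc hC
        rw [hCD _ hC (h.sub _ hc)]
        exact ⟨p, ht.start_mem⟩
      · rintro x rfl; exact subset_rfl
      · rintro z rfl; exact ht.start_mem
  | @endC p V c hc hcD h =>
    refine ⟨{p}, ∅, fun _ => ∅, rfl, ?_, ?_, ?_, ?_, ?_⟩
    · rintro z rfl; exact ReflTransGen.refl
    · rintro x ⟨⟩
    · rintro x ⟨⟩
    · intro y hy hD
      left
      rw [hCD _ (h.sub _ hy) hD]
      exact base_fr rfl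
    · intro D' e' φ' _ _ he' _
      refine ⟨V, c, he' c hc hcD, h.mono Set.subset_union_left, ?_, ?_, ?_⟩
      · intro c hc _; exact ⟨c.1, hc⟩
      · rintro x ⟨⟩
      · rintro z rfl; exact h.start_mem
  | @stepC p r V W h hdec ih =>
    obtain ⟨Z, X, φ, z1, z2, z3, z4, z5, z6⟩ := ih
    have hpr : Rch E (C ∪ D) (p, v) (r, v) := (h.mono Set.subset_union_left).rch
    refine ⟨insert p Z, X, φ, Set.mem_insert _ _, ?_, ?_, z4, ?_, ?_⟩
    · rintro z (rfl | hz)
      · exact ReflTransGen.refl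
      · exact hpr.trans (z2 z hz)
    · intro x hx; exact Set.mem_insert_of_mem _ (z3 x hx)
    · rintro c (hc | hc) hD
      · left
        rw [hCD _ (h.sub _ hc) hD]
        exact base_fr (Set.mem_insert _ _)
      · rcases z5 c hc hD with h' | h'
        · exact Or.inl (h'.mono (EZ_mono (Set.subset_insert _ _)))
        · exact Or.inr h'
    · intro D' e' φ' hv hS he' hφ'
      obtain ⟨V', d', y1, y2, y3, y4, y5⟩ := z6 D' e' φ' hv hS he' hφ'
      refine ⟨V ∪ V', d', y1, (h.mono Set.subset_union_left).append y2, ?_, ?_, ?_⟩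
      · rintro c (hc | hc) hC
        · exact ⟨c.1, Or.inl hc⟩
        · obtain ⟨q, hq⟩ := y3 c hc hC
          exact ⟨q, Or.inr hq⟩
      · intro x hx; exact (y4 x hx).trans Set.subset_union_right
      · rintro z (rfl | hz)
        · exact Or.inl h.start_mem
        · exact Or.inr (y5 z hz)
  | @stepD p r V W h hdec ih =>
    obtain ⟨Z, X, φ, z1, z2, z3, z4, z5, z6⟩ := ih
    have hpr : Rch E (C ∪ D) (p, v) (r, v) := (h.mono Set.subset_union_right).rch
    by_cases hrp : Rch E (C ∪ D) (r, v) (p, v)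
    · refine ⟨insert p Z, X, φ, Set.mem_insert _ _, ?_, ?_, z4, ?_, ?_⟩
      · rintro z (rfl | hz)
        · exact ReflTransGen.refl
        · exact hpr.trans (z2 z hz)
      · intro x hx; exact Set.mem_insert_of_mem _ (z3 x hx)
      · rintro c (hc | hc) hD
        · left
          obtain ⟨b1, b2⟩ := h.bounds c hc
          exact ⟨(p, r), ⟨p, Set.mem_insert _ _, ReflTransGen.refl, hrp⟩, c.1, b1, b2⟩
        · rcases z5 c hc hD with h' | h'
          · exact Or.inl (h'.mono (EZ_mono (Set.subset_insert _ _)))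
          · exact Or.inr h'
      · intro D' e' φ' hv hS he' hφ'
        obtain ⟨V', d', y1, y2, y3, y4, y5⟩ := z6 D' e' φ' hv hS he' hφ'
        obtain ⟨V0, hV0⟩ := exists_trace_of_rch (hS _ _ h.rch) hv
        refine ⟨V0 ∪ V', d', y1, (hV0.mono Set.subset_union_right).append y2, ?_, ?_, ?_⟩
        · rintro c (hc | hc) hC
          · rw [hCD _ hC (h.sub _ hc)]
            exact ⟨p, Or.inl hV0.start_mem⟩
          · obtain ⟨q, hq⟩ := y3 c hc hC
            exact ⟨q, Or.inr hq⟩
        · intro x hx; exact (y4 x hx).trans Set.subset_union_right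
        · rintro z (rfl | hz)
          · exact Or.inl hV0.start_mem
          · exact Or.inr (y5 z hz)
    · have hpX : (p, some r) ∉ X := fun hx => hrp (z2 _ (z3 _ hx))
      refine ⟨insert p Z, insert (p, some r) X, Function.update φ (p, some r) V,
        Set.mem_insert _ _, ?_, ?_, ?_, ?_, ?_⟩
      · rintro z (rfl | hz)
        · exact ReflTransGen.refl
        · exact hpr.trans (z2 z hz)
      · rintro x (rfl | hx)
        · exact Set.mem_insert _ _
        · exact Set.mem_insert_of_mem _ (z3 x hx)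
      · rintro x (rfl | hx)
        · rw [Function.update_self]
          exact ⟨(r, v), rfl, h⟩
        · rw [Function.update_of_ne]
          · exact z4 x hx
          · rintro rfl; exact hpX hx
      · rintro c (hc | hc) hD
        · right
          refine ⟨(p, some r), Set.mem_insert _ _, c.1, ?_⟩
          rw [Function.update_self]
          exact hc
        · rcases z5 c hc hD with h' | ⟨x, hx, q, hq⟩
          · exact Or.inl (h'.mono (EZ_mono (Set.subset_insert _ _)))
          · refine Or.inr ⟨x, Set.mem_insert_of_mem _ hx, q, ?_⟩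
            rw [Function.update_of_ne]
            · exact hq
            · rintro rfl; exact hpX hx
      · intro D' e' φ' hv hS he' hφ'
        obtain ⟨V', d', y1, y2, y3, y4, y5⟩ := z6 D' e' φ' hv hS he'
          (fun x hx => hφ' x (Set.mem_insert_of_mem _ hx))
        obtain ⟨c0, hc0, hV0⟩ := hφ' (p, some r) (Set.mem_insert _ _)
        have hc0' : c0 = (r, v) := hc0
        subst hc0'
        refine ⟨φ' (p, some r) ∪ V', d', y1, (hV0.mono Set.subset_union_right).append y2,
          ?_, ?_, ?_⟩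
        · rintro c (hc | hc) hC
          · rw [hCD _ hC (h.sub _ hc)]
            exact ⟨p, Or.inl hV0.start_mem⟩
          · obtain ⟨q, hq⟩ := y3 c hc hC
            exact ⟨q, Or.inr hq⟩
        · rintro x (rfl | hx)
          · exact Set.subset_union_left
          · exact (y4 x hx).trans Set.subset_union_right
        · rintro z (rfl | hz)
          · exact Or.inl hV0.start_mem
          · exact Or.inr (y5 z hz)

end Decomp

end Pool.Agent.FIM
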