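import Mathlib
import Pool.Agent.MP_61c0e4_al.Usage

set_option autoImplicit false
set_option linter.unusedSimpArgs false
set_option linter.unusedSectionVars false

/-! The replacement lemma for usages, and pumping down to doubly exponential height. -/

namespace Pool.Agent.FIM

open Relation

variable {k : ℕ} {Q : Type*}

/-- **Replacement lemma for usages.** An accepted region `C ∪ D` has a usage of `D` such that
`D` may be replaced by every other region which can be covered with this usage. -/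
lemma good_usage {E : Set (Q × Lt k × Q)} {C D : Set (Vx k)} {v : Vx k} {s : Q}
    {e : Set (Q × Vx k)} (hnC : [] ∈ C) (hvC : v ∈ C) (hvD : v ∈ D)
    (hCD : ∀ t ∈ C, t ∈ D → t = v)
    (hE : ∀ c d, Edge E (C ∪ D) c d → Edge E C c d ∨ Edge E D c d)
    (h : Acc E (C ∪ D) s e) :
    ∃ us : Usg Q, Covers E D v e us ∧
      ∀ (D' : Set (Vx k)) (e' : Set (Q × Vx k)), v ∈ D' → (C ∪ D').Finite →
        (∀ a b, Rch E D (a, v) (b, v) → Rch E D' (a, v) (b, v)) →
        (∀ c ∈ e, c.2 ∉ D → c ∈ e') → Covers E D' v e' us → Acc E (C ∪ D') s e' := by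
  obtain ⟨V, d, hd, ht, hcov⟩ := trace_of_acc h
  obtain ⟨V0, r, V1, h1, h2, h3⟩ : ∃ V0 r V1, Trace E C (s, []) V0 (r, v) ∧
      Dec E C D v e r V1 ∧ V ⊆ V0 ∪ V1 := by
    rcases (exists_dec hvC hvD hCD hE ht hd).1 hnC with ⟨_, _, _, _, h4⟩ | h'
    · obtain ⟨q, hq⟩ := hcov v (Or.inl hvC)
      exact absurd rfl (h4 _ hq)
    · exact h'
  obtain ⟨Z, X, φ, z1, z2, z3, z4, z5, z6⟩ := usage_of_dec hCD h2
  refine ⟨(EZ E (C ∪ D) v Z, X), ⟨φ, z4, ?_⟩, ?_⟩
  · intro t ht'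
    obtain ⟨q, hq⟩ := hcov t (Or.inr ht')
    rcases h3 hq with hq | hq
    · left
      have := hCD t (h1.sub _ hq) ht'
      subst this
      exact base_fr z1
    · exact z5 _ hq ht'
  · intro D' e' hv hfin hS he' hcov'
    obtain ⟨φ', c1, c2⟩ := hcov'
    obtain ⟨V', d', y1, y2, y3, y4, y5⟩ := z6 D' e' φ' hv hS he' c1
    have hbase : ∀ p q, Rch E (C ∪ D) (p, v) (q, v) → Rch E (C ∪ D') (p, v) (q, v) := by
      intro p q hpq
      have h1 := decomp_base hCD hE hpq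
      clear hpq
      induction h1 with
      | refl => exact ReflTransGen.refl
      | @tail q q' _ hstep ih =>
        refine ih.trans ?_
        rcases hstep with hs | hs
        · exact hs.mono Set.subset_union_left
        · exact (hS _ _ hs).mono Set.subset_union_right
    have htr := (h1.mono (Set.subset_union_left (t := D'))).append y2
    refine acc_of_trace hfin y1 htr ?_
    intro t ht'
    have hvis : ∀ q, (q, t) ∈ V0 ∪ V' →
        ∃ q, ∃ y ∈ V0 ∪ V', Rch E (C ∪ D') y (q, t) ∧ Rch E (C ∪ D') (q, t) y :=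
      fun q hq => ⟨q, (q, t), hq, ReflTransGen.refl, ReflTransGen.refl⟩
    rcases ht' with ht' | ht'
    · obtain ⟨q, hq⟩ := hcov t (Or.inl ht')
      rcases h3 hq with hq | hq
      · exact hvis q (Or.inl hq)
      · obtain ⟨q', hq'⟩ := y3 _ hq ht'
        exact hvis q' (Or.inr hq')
    · rcases c2 t ht' with ⟨ab, ⟨z, hz, g1, g2⟩, q, g3, g4⟩ | ⟨x, hx, q, hq⟩
      · refine ⟨q, (z, v), Or.inr (y5 z hz), ?_, ?_⟩
        · exact (hbase _ _ g1).trans (g3.mono Set.subset_union_right)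
        · exact (g4.mono Set.subset_union_right).trans (hbase _ _ g2)
      · exact hvis q (Or.inr (y4 x hx hq))

/-- Type of a region: reachability at the base vertex and the usages with which the region can
be covered. -/
abbrev FT (Q : Type*) := Set (Q × Q) × Set (Usg Q)

/-- Base reachability. -/
def bas (E : Set (Q × Lt k × Q)) (D : Set (Vx k)) (v : Vx k) : Set (Q × Q) :=
  {pq | Rch E D (pq.1, v) (pq.2, v)}

/-- Usages covering a region. -/
def usgs (E : Set (Q × Lt k × Q)) (D : Set (Vx k)) (v : Vx k) (e : Set (Q × Vx k)) :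
    Set (Usg Q) := {us | Covers E D v e us}

section Shift

variable {E : Set (Q × Lt k × Q)} {U : Set (Vx k)} {v : Vx k}

lemma trace_shift (hv : v ≠ []) (hU : ∀ u ∈ U, Red (u ++ v)) {c d : Q × Vx k}
    {V : Set (Q × Vx k)} (h : Trace E U c V d) :
    Trace E (shift v U) (sc v c) (sc v '' V) (sc v d) := by
  induction h with
  | nil c hc =>
    rw [Set.image_singleton]
    exact Trace.nil _ ⟨c.2, hc, rfl⟩
  | cons he _ ih =>
    rw [Set.image_insert_eq]
    exact Trace.cons ((edge_shift hv hU _ _).2 he) ih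

lemma trace_unshift (hv : v ≠ []) (hU : ∀ u ∈ U, Red (u ++ v)) {c' d' : Q × Vx k}
    {V' : Set (Q × Vx k)} (h : Trace E (shift v U) c' V' d') :
    ∀ c, c' = sc v c → ∃ d V, d' = sc v d ∧ V' = sc v '' V ∧ Trace E U c V d := by
  induction h with
  | nil c' hc =>
    rintro c rfl
    obtain ⟨u, hu, h⟩ := hc
    have : c.2 = u := (List.append_cancel_right h).symm
    refine ⟨c, {c}, rfl, by rw [Set.image_singleton], Trace.nil c (this ▸ hu)⟩
  | @cons c' c'' d' V' he _ ih =>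
    rintro c rfl
    obtain ⟨c1, rfl⟩ : ∃ c1, c'' = sc v c1 := by
      obtain ⟨_, _, _, _, ⟨u, _, h5⟩⟩ := he
      exact ⟨(c''.1, u), Prod.ext rfl h5.symm⟩
    obtain ⟨d, V, rfl, rfl, h⟩ := ih c1 rfl
    refine ⟨d, insert c V, rfl, by rw [Set.image_insert_eq], Trace.cons ?_ h⟩
    exact (edge_shift hv hU _ _).1 he

lemma bas_shift (hv : v ≠ []) (hU : ∀ u ∈ U, Red (u ++ v)) :
    bas E (shift v U) v = bas E U [] := by
  ext ⟨p, q⟩
  have := rch_shift (E := E) hv hU (p, []) (q, [])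
  simpa [bas, sc] using this

lemma sc_base (p : Q) : (p, v) = sc v (p, ([] : Vx k)) := rfl

lemma exc_shift (hv : v ≠ []) (hU : ∀ u ∈ U, Red (u ++ v)) {e : Set (Q × Vx k)}
    {x : Q × Option Q} {V' : Set (Q × Vx k)} :
    Exc E (shift v U) v e x V' ↔ ∃ V, V' = sc v '' V ∧ Exc E U [] (sc v ⁻¹' e) x V := by
  obtain ⟨p, o⟩ := x
  constructor
  · rintro ⟨c, hc, h⟩
    obtain ⟨d, V, rfl, rfl, h'⟩ := trace_unshift hv hU h (p, []) (sc_base p)
    refine ⟨V, rfl, d, ?_, h'⟩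
    cases o with
    | none => exact hc
    | some b =>
      exact sc_inj v (show sc v d = sc v (b, []) from hc)
  · rintro ⟨V, rfl, d, hd, h⟩
    refine ⟨sc v d, ?_, trace_shift hv hU h⟩
    cases o with
    | none => exact hd
    | some b =>
      have : d = (b, []) := hd
      subst this
      rfl

lemma fr_shift (hv : v ≠ []) (hU : ∀ u ∈ U, Red (u ++ v)) {L : Set (Q × Q)} {t : Vx k} :
    Fr E (shift v U) v L (t ++ v) ↔ Fr E U [] L t := by
  have h1 : ∀ p q, Rch E (shift v U) (p, v) (q, t ++ v) ↔ Rch E U (p, []) (q, t) :=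
    fun p q => rch_shift (E := E) hv hU (p, []) (q, t)
  have h2 : ∀ p q, Rch E (shift v U) (q, t ++ v) (p, v) ↔ Rch E U (q, t) (p, []) :=
    fun p q => rch_shift (E := E) hv hU (q, t) (p, [])
  simp only [Fr, h1, h2]

lemma covers_shift (hv : v ≠ []) (hU : ∀ u ∈ U, Red (u ++ v)) {e : Set (Q × Vx k)}
    {us : Usg Q} : Covers E (shift v U) v e us ↔ Covers E U [] (sc v ⁻¹' e) us := by
  classical
  constructor
  · rintro ⟨φ, h1, h2⟩
    choose! ψ hψ1 hψ2 using fun x hx => (exc_shift hv hU).1 (h1 x hx)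
    refine ⟨ψ, hψ2, ?_⟩
    intro t ht
    rcases h2 (t ++ v) ⟨t, ht, rfl⟩ with h | ⟨x, hx, q, hq⟩
    · exact Or.inl ((fr_shift hv hU).1 h)
    · right
      rw [hψ1 x hx] at hq
      obtain ⟨c, hc, hc'⟩ := hq
      have : c = (q, t) := sc_inj v hc'
      subst this
      exact ⟨x, hx, q, hc⟩
  · rintro ⟨φ, h1, h2⟩
    refine ⟨fun x => sc v '' φ x, fun x hx => (exc_shift hv hU).2 ⟨_, rfl, h1 x hx⟩, ?_⟩
    rintro _ ⟨t, ht, rfl⟩
    rcases h2 t ht with h | ⟨x, hx, q, hq⟩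
    · exact Or.inl ((fr_shift hv hU).2 h)
    · exact Or.inr ⟨x, hx, q, (q, t), hq, rfl⟩

end Shift

/-- Fingerprint of a vertex. -/
abbrev FQ (k : ℕ) (Q1 Q2 : Type*) :=
  Lt k × Prop × (Set (Q1 × Q1) × Usg Q1) × (Set (Q2 × Q2) × Set (Usg Q2))

/-- End marker. -/
def em (F : Set Q) (g : Vx k) : Set (Q × Vx k) := {c | c.1 ∈ F ∧ c.2 = g}

lemma acc_em {E : Set (Q × Lt k × Q)} {T : Set (Vx k)} {s : Q} {F : Set Q} {g : Vx k} :
    Acc E T s (em F g) ↔ ∃ f ∈ F, Cov E T s g f := by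
  constructor
  · rintro ⟨⟨f, x⟩, ⟨hf, hx⟩, h⟩
    simp only at hf hx h
    subst hx
    exact ⟨f, hf, h⟩
  · rintro ⟨f, hf, h⟩
    exact ⟨(f, g), ⟨hf, rfl⟩, h⟩

/-- Pumping down. -/
theorem pump_down' {Q1 Q2 : Type*} [Fintype Q1] [Fintype Q2] [Fintype (FQ k Q1 Q2)]
    (E1 : Set (Q1 × Lt k × Q1)) (E2 : Set (Q2 × Lt k × Q2)) (s1 : Q1) (S2 : Set Q2)
    (F1 : Set Q1) (F2 : Set Q2) {T : Set (Vx k)} (hTfin : T.Finite) {g : Vx k}
    (hgT : g ∈ T) (hnT : [] ∈ T) (hred : ∀ x ∈ T, Red x)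
    (hsuf : ∀ x ∈ T, ∀ y, y <:+ x → y ∈ T)
    (h1 : Acc E1 T s1 (em F1 g)) (h2 : ∀ s2 ∈ S2, ¬ Acc E2 T s2 (em F2 g))
    {t : Vx k} (ht : t ∈ T) (hdeep : Fintype.card (FQ k Q1 Q2) < t.length) :
    ∃ (T' : Set (Vx k)) (g' : Vx k), T'.Finite ∧ T'.ncard < T.ncard ∧
      Acc E1 T' s1 (em F1 g') ∧ ∀ s2 ∈ S2, ¬ Acc E2 T' s2 (em F2 g') := by
  classical
  have hctxv : ∀ x ∈ T, x ∈ ctx T x := fun x _ => Or.inr rfl
  have hshv : ∀ x ∈ T, x ∈ shift x (sub T x) := fun x hx => ⟨[], hx, rfl⟩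
  have hnC : ∀ x, x ≠ [] → [] ∈ ctx T x := fun x hx => Or.inl ⟨hnT, by simpa using hx⟩
  have hUx : ∀ x, ∀ u ∈ sub T x, Red (u ++ x) := fun x u hu => hred _ hu
  -- usages of the given walk
  have husage : ∀ x ∈ T, x ≠ [] → ∃ us : Usg Q1,
      Covers E1 (sub T x) [] (sc x ⁻¹' em F1 g) us ∧
      ∀ (U' : Set (Vx k)) (e' : Set (Q1 × Vx k)), [] ∈ U' → (ctx T x ∪ shift x U').Finite →
        (∀ u ∈ U', Red (u ++ x)) → bas E1 (sub T x) [] ⊆ bas E1 U' [] →
        (∀ c ∈ em F1 g, ¬ x <:+ c.2 → c ∈ e') →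
        Covers E1 U' [] (sc x ⁻¹' e') us → Acc E1 (ctx T x ∪ shift x U') s1 e' := by
    intro x hx hxn
    have h := h1
    rw [← union_ctx_sub hx] at h
    obtain ⟨us, u1, u2⟩ := good_usage (hnC x hxn) (hctxv x hx) (hshv x hx)
      (fun t a b => ctx_shift_inter t a b) (edge_ctx (show [] ∈ sub T x from hx)) h
    refine ⟨us, (covers_shift hxn (hUx x)).1 u1, ?_⟩
    intro U' e' hnU' hfin hredU' hbas he' hcov
    refine u2 _ e' ⟨[], hnU', rfl⟩ hfin ?_ ?_ ((covers_shift hxn hredU').2 hcov)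
    · intro a b hab
      have h3 : (a, b) ∈ bas E1 (shift x (sub T x)) x := hab
      rw [bas_shift hxn (hUx x)] at h3
      have h4 := hbas h3
      rw [← bas_shift hxn hredU'] at h4
      exact h4
    · intro c hc hcD
      apply he' c hc
      rintro ⟨u, hu⟩
      apply hcD
      refine ⟨u, ?_, hu⟩
      change u ++ x ∈ T
      rw [hu, hc.2]
      exact hgT
  choose! us hus1 hus2 using husage
  -- fingerprints of the suffixes of `t`
  let Φ : Fin t.length → FQ k Q1 Q2 := fun i =>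
    (t[i], t.drop i <:+ g,
      (bas E1 (sub T (t.drop i)) [], us (t.drop i)),
      (bas E2 (sub T (t.drop i)) [], usgs E2 (sub T (t.drop i)) [] (sc (t.drop i) ⁻¹' em F2 g)))
  obtain ⟨i, j, hij, hΦ⟩ := Fintype.exists_ne_map_eq_of_card_lt Φ (by simpa using hdeep)
  wlog hlt : (i : ℕ) < j generalizing i j
  · exact this j i hij.symm hΦ.symm (by
      have : (i : ℕ) ≠ j := fun h => hij (Fin.ext h)
      omega)
  simp only [Φ, Prod.mk.injEq] at hΦ
  obtain ⟨e1, e2, ⟨e3, e4⟩, e5, e6⟩ := hΦ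
  set v := t.drop j with hv
  set v' := t.drop i with hv'
  have hvT : v ∈ T := hsuf t ht _ (List.drop_suffix _ _)
  have hv'T : v' ∈ T := hsuf t ht _ (List.drop_suffix _ _)
  have hvv : v <:+ v' := by
    rw [hv, hv']
    have : t.drop j = (t.drop i).drop (j - i) := by
      rw [List.drop_drop]
      congr 1
      omega
    rw [this]
    exact List.drop_suffix _ _
  have hlen : v.length < v'.length := by
    rw [hv, hv', List.length_drop, List.length_drop]
    have := j.2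
    omega
  have hne : v ≠ v' := fun h => by rw [h] at hlen; exact lt_irrefl _ hlen
  have hvn : v ≠ [] := by
    intro h
    have : v.length = 0 := by rw [h]; rfl
    rw [hv, List.length_drop] at this
    have := j.2
    omega
  have hvn' : v' ≠ [] := by
    intro h
    rw [h] at hlen
    simp at hlen
  have hvc : v = t[j] :: t.drop (j + 1) := by
    rw [hv, List.drop_eq_getElem_cons j.2]; rfl
  have hvc' : v' = t[j] :: t.drop (i + 1) := by
    rw [hv', List.drop_eq_getElem_cons i.2, ← e1]; rfl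
  -- reducedness
  have hU : ∀ u ∈ sub T v, Red (u ++ v) := hUx v
  have hU' : ∀ u ∈ sub T v', Red (u ++ v) := by
    intro u hu
    have r1 : Red (u ++ v') := hred _ hu
    have r2 : Red v := hred _ hvT
    unfold Red at *
    rw [hvc', List.isChain_split] at r1
    rw [hvc] at r2 ⊢
    rw [List.isChain_split]
    exact ⟨r1.1, r2⟩
  have hnU : [] ∈ sub T v := hvT
  have hnU' : [] ∈ sub T v' := hv'T
  -- the new end vertex
  obtain ⟨g', hg1, hg2⟩ : ∃ g', (¬ v <:+ g → g' = g) ∧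
      ∀ u, (u ++ v = g' ↔ u ++ v' = g) := by
    by_cases hvg : v <:+ g
    · have hvg' : v' <:+ g := by rw [e2]; exact hvg
      obtain ⟨u', hu'⟩ := hvg'
      refine ⟨u' ++ v, fun h => absurd hvg h, fun u => ?_⟩
      rw [← hu', List.append_left_inj, List.append_left_inj]
    · have hvg' : ¬ v' <:+ g := by rw [e2]; exact hvg
      refine ⟨g, fun _ => rfl, fun u => ?_⟩
      constructor
      · intro h; exact absurd ⟨u, h⟩ hvg
      · intro h; exact absurd ⟨u, h⟩ hvg'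
  have hem1 : (sc v ⁻¹' em F1 g' : Set (Q1 × Vx k)) = sc v' ⁻¹' em F1 g := by
    ext c
    simp only [Set.mem_preimage, em, Set.mem_ofPred_eq, sc, hg2]
  have hem2 : (sc v ⁻¹' em F2 g' : Set (Q2 × Vx k)) = sc v' ⁻¹' em F2 g := by
    ext c
    simp only [Set.mem_preimage, em, Set.mem_ofPred_eq, sc, hg2]
  set T' := ctx T v ∪ shift v (sub T v') with hT'
  obtain ⟨hfin', hcard⟩ := shrink_card hTfin hvT hv'T hvv hne
  refine ⟨T', g', hfin', hcard, ?_, ?_⟩
  · -- forward for the first automaton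
    refine hus2 v hvT hvn (sub T v') (em F1 g') hnU' hfin' hU' (le_of_eq e3.symm) ?_ ?_
    · rintro c ⟨hc1, hc2⟩ hc3
      refine ⟨hc1, ?_⟩
      rw [hc2] at hc3 ⊢
      exact (hg1 hc3).symm
    · rw [hem1, ← e4]
      exact hus1 v' hv'T hvn'
  · -- backward for the second automaton
    intro s2 hs2 hacc
    apply h2 s2 hs2
    have hvC : v ∈ ctx T v := Or.inr rfl
    have hvD : v ∈ shift v (sub T v') := ⟨[], hnU', rfl⟩
    obtain ⟨w, w1, w2⟩ := good_usage (hnC v hvn) hvC hvD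
      (fun t a b => ctx_shift_inter t a b) (edge_ctx hnU') hacc
    rw [← union_ctx_sub hvT]
    refine w2 (shift v (sub T v)) (em F2 g) ⟨[], hnU, rfl⟩ ?_ ?_ ?_ ?_
    · rw [union_ctx_sub hvT]; exact hTfin
    · intro a b hab
      have h3 : (a, b) ∈ bas E2 (shift v (sub T v')) v := hab
      rw [bas_shift hvn hU', e5, ← bas_shift hvn hU] at h3
      exact h3
    · rintro c ⟨hc1, hc2⟩ hc3
      refine ⟨hc1, ?_⟩
      by_cases hvg : v <:+ g
      · exfalso
        apply hc3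
        have hvg' : v' <:+ g := by rw [e2]; exact hvg
        obtain ⟨u', hu'⟩ := hvg'
        refine ⟨u', ?_, ?_⟩
        · change u' ++ v' ∈ T
          rw [hu']; exact hgT
        · change u' ++ v = c.2
          rw [hc2]
          exact (hg2 u').2 hu'
      · rw [hc2, hg1 hvg]
    · rw [covers_shift hvn hU]
      rw [covers_shift hvn hU', hem2] at w1
      have : w ∈ usgs E2 (sub T v') [] (sc v' ⁻¹' em F2 g) := w1
      rw [e6] at this
      exact this

/-- Pumping down to bounded height. -/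
theorem pump' {Q1 Q2 : Type*} [Fintype Q1] [Fintype Q2] [Fintype (FQ k Q1 Q2)]
    (E1 : Set (Q1 × Lt k × Q1)) (E2 : Set (Q2 × Lt k × Q2)) (s1 : Q1) (S2 : Set Q2)
    (F1 : Set Q1) (F2 : Set Q2)
    {w : List (Lt k)} {f1 : Q1} (hf1 : f1 ∈ F1) (h1 : Run E1 s1 w f1)
    (h2 : ∀ w', Same w w' → ∀ s2 ∈ S2, ∀ f2 ∈ F2, ¬ Run E2 s2 w' f2) :
    ∃ w', ∃ f1' ∈ F1, Run E1 s1 w' f1' ∧
      (∀ w'', Same w' w'' → ∀ s2 ∈ S2, ∀ f2 ∈ F2, ¬ Run E2 s2 w'' f2) ∧
      ∀ t ∈ vis [] w', t.length ≤ Fintype.card (FQ k Q1 Q2) := by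
  induction hn : {x | x ∈ vis [] w}.ncard using Nat.strong_induction_on generalizing w f1 with
  | _ n ih =>
    by_cases hd : ∃ t ∈ vis [] w, Fintype.card (FQ k Q1 Q2) < t.length
    · obtain ⟨t, ht, hd⟩ := hd
      have ha1 : Acc E1 {x | x ∈ vis [] w} s1 (em F1 (pos [] w)) :=
        acc_em.2 ⟨f1, hf1, w, h1, rfl, fun _ => Iff.rfl⟩
      have ha2 : ∀ s2 ∈ S2, ¬ Acc E2 {x | x ∈ vis [] w} s2 (em F2 (pos [] w)) := by
        intro s2 hs2 h
        obtain ⟨f2, hf2, w2, g1, g2, g3⟩ := acc_em.1 h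
        exact h2 w2 ⟨fun t => (g3 t).symm, g2.symm⟩ s2 hs2 f2 hf2 g1
      obtain ⟨T', g', a1, a2, a3, a4⟩ := pump_down' E1 E2 s1 S2 F1 F2
        (List.finite_toSet _) (show pos [] w ∈ {x | x ∈ vis [] w} from pos_mem_vis _ _)
        (show [] ∈ {x | x ∈ vis [] w} from start_mem_vis _ _)
        (fun x hx => vis_red red_nil w hx) (fun x hx y hy => vis_suffix_nil hx hy) ha1 ha2 ht hd
      obtain ⟨f, hf, w', b1, b2, b3⟩ := acc_em.1 a3
      have hT' : {x | x ∈ vis [] w'} = T' := by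
        ext t
        exact b3 t
      refine ih _ ?_ hf b1 ?_ rfl
      · rw [hT', ← hn]; exact a2
      · intro w'' hs s2 hs2 f2 hf2 hrun
        apply a4 s2 hs2
        refine acc_em.2 ⟨f2, hf2, w'', hrun, ?_, ?_⟩
        · rw [← hs.2, b2]
        · intro t
          rw [← hs.1 t, b3 t]
    · push Not at hd
      exact ⟨w, f1, hf1, h1, h2, hd⟩

end Pool.Agent.FIM
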