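import Mathlib
import Pool.Agent.MP_61c0e4_al.Replace
import Pool.Agent.MP_61c0e4_al.Comp

set_option autoImplicit false
set_option linter.unusedSimpArgs false
set_option linter.unusedSectionVars false

/-! Small counterexamples to inclusion for nondeterministic finite automata. -/

namespace Pool.Agent.FIM

open Relation

variable {k : ℕ}

/-- Height bound, doubly exponential in `n` and singly exponential in `m`. -/
def hB (k m n : ℕ) : ℕ := 4 * k * 2 ^ (3 * m ^ 2 + m + n ^ 2 + 2 ^ (2 * n ^ 2 + n))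

/-- Bound for the number of vertices. -/
def vB (k m n : ℕ) : ℕ := (2 * k + 1) ^ hB k m n

/-- Length bound. -/
def lB (k m n : ℕ) : ℕ := m * (vB k m n * (vB k m n + 1))

lemma ncard_set (α : Type) [Finite α] : Nat.card (Set α) = 2 ^ Nat.card α := by
  classical
  have := Fintype.ofFinite α
  rw [Nat.card_eq_fintype_card, Nat.card_eq_fintype_card, Fintype.card_set]

lemma card_FQ {Q1 Q2 : Type} [Fintype Q1] [Fintype Q2] [Fintype (FQ k Q1 Q2)] :
    Fintype.card (FQ k Q1 Q2) = hB k (Fintype.card Q1) (Fintype.card Q2) := by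
  classical
  rw [← Nat.card_eq_fintype_card]
  set m := Fintype.card Q1 with hm
  set n := Fintype.card Q2 with hn
  have h1 : Nat.card (FQ k Q1 Q2) = (k * 2) * (2 * ((2 ^ (m * m) * (2 ^ (m * m) * 2 ^ (m * (m + 1)))) *
      (2 ^ (n * n) * 2 ^ (2 ^ (n * n) * 2 ^ (n * (n + 1)))))) := by
    have o1 : Nat.card (Option Q1) = m + 1 := by
      rw [Nat.card_eq_fintype_card, Fintype.card_option]
    have o2 : Nat.card (Option Q2) = n + 1 := by
      rw [Nat.card_eq_fintype_card, Fintype.card_option]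
    have o3 : Nat.card Q1 = m := Nat.card_eq_fintype_card
    have o4 : Nat.card Q2 = n := Nat.card_eq_fintype_card
    have o5 : Nat.card (Lt k) = k * 2 := by simp [Lt]
    have o6 : Nat.card Prop = 2 := by simp
    simp only [FQ, Usg, Nat.card_prod, ncard_set, o1, o2, o3, o4, o5, o6]
  rw [h1, hB]
  have e1 : 2 ^ (n * n) * 2 ^ (n * (n + 1)) = 2 ^ (2 * n ^ 2 + n) := by
    rw [← pow_add]; congr 1; ring
  rw [e1]
  have e2 : 3 * m ^ 2 + m + n ^ 2 + 2 ^ (2 * n ^ 2 + n) =
      (m * m + (m * m + m * (m + 1))) + (n * n + 2 ^ (2 * n ^ 2 + n)) := by ring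
  rw [e2]
  simp only [pow_add]
  ring

lemma length_words (n : ℕ) : (words k n).length ≤ (2 * k + 1) ^ n := by
  induction n with
  | zero => simp [words]
  | succ n ih =>
    have h1 : (letters k).length = 2 * k := by
      simp [letters, List.length_flatMap, mul_comm]
    have h2 : (words k (n + 1)).length = (words k n).length * (2 * k) + 1 := by
      simp [words, List.length_flatMap, h1]
    rw [h2, pow_succ]
    have h3 : 1 ≤ (2 * k + 1) ^ n := Nat.one_le_pow _ _ (by omega)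
    nlinarith

lemma run_nfa {σ : Type*} (M : NFA (Lt k) σ) (w : List (Lt k)) (S : Set σ) (f : σ) :
    f ∈ M.evalFrom S w ↔ ∃ s ∈ S, Run {x : σ × Lt k × σ | x.2.2 ∈ M.step x.1 x.2.1} s w f := by
  induction w generalizing S with
  | nil =>
    rw [NFA.evalFrom_nil]
    constructor
    · intro h; exact ⟨f, h, Run.nil f⟩
    · rintro ⟨s, hs, h⟩
      cases h
      exact hs
  | cons a w ih =>
    rw [NFA.evalFrom_cons, ih]
    constructor
    · rintro ⟨s, hs, h⟩
      rw [NFA.mem_stepSet] at hs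
      obtain ⟨t, ht, hts⟩ := hs
      exact ⟨t, ht, Run.cons (q := s) hts h⟩
    · rintro ⟨s, hs, h⟩
      cases h with
      | @cons _ _ q _ _ he h =>
        exact ⟨q, NFA.mem_stepSet.2 ⟨s, hs, he⟩, h⟩

lemma accepts_iff {σ : Type*} (M : NFA (Lt k) σ) (w : List (Lt k)) :
    w ∈ M.accepts ↔ ∃ s ∈ M.start, ∃ f ∈ M.accept,
      Run {x : σ × Lt k × σ | x.2.2 ∈ M.step x.1 x.2.1} s w f := by
  rw [NFA.mem_accepts]
  constructor
  · rintro ⟨f, hf, h⟩
    obtain ⟨s, hs, h⟩ := (run_nfa M w _ f).1 h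
    exact ⟨s, hs, f, hf, h⟩
  · rintro ⟨s, hs, f, hf, h⟩
    exact ⟨f, hf, (run_nfa M w _ f).2 ⟨s, hs, h⟩⟩

/-- Vertices and reduced words in the free group. -/
lemma mk_pos (w : List (Lt k)) : ∀ x : Vx k,
    FreeGroup.mk (x.reverse ++ w) = FreeGroup.mk (pos x w).reverse := by
  induction w with
  | nil => intro x; simp
  | cons a w ih =>
    intro x
    rw [pos_cons, ← ih]
    have h1 : x.reverse ++ a :: w = (x.reverse ++ [a]) ++ w := by simp
    rw [h1, ← FreeGroup.mul_mk, ← FreeGroup.mul_mk (L₂ := w)]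
    congr 1
    cases x with
    | nil => simp [stp]
    | cons b x =>
      simp only [stp]
      split_ifs with hb
      · subst hb
        simp only [List.reverse_cons, List.append_assoc, List.cons_append, List.nil_append]
        have := Quot.sound (r := FreeGroup.Red.Step)
          (FreeGroup.Red.Step.not_rev (L₁ := x.reverse) (L₂ := []) (x := a.1) (b := a.2))
        rw [List.append_nil] at this
        exact this
      · simp

lemma norm_le_pos (w : List (Lt k)) : (FreeGroup.mk w).norm ≤ (pos [] w).length := by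
  have := mk_pos w []
  simp only [List.reverse_nil, List.nil_append] at this
  rw [this]
  exact FreeGroup.norm_mk_le.trans (by simp)

/-- **Small counterexamples.** -/
theorem small_counterexample {σ₁ σ₂ : Type} [Fintype σ₁] [Fintype σ₂] (M₁ : NFA (Lt k) σ₁)
    (M₂ : NFA (Lt k) σ₂) {w : List (Lt k)} (hw : w ∈ M₁.accepts)
    (h2 : ∀ w' ∈ M₂.accepts, ¬ Same w w') :
    ∃ w₁ ∈ M₁.accepts, (∀ w' ∈ M₂.accepts, ¬ Same w₁ w') ∧
      (∀ t ∈ vis [] w₁, t.length ≤ hB k (Fintype.card σ₁) (Fintype.card σ₂)) ∧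
      w₁.length ≤ lB k (Fintype.card σ₁) (Fintype.card σ₂) := by
  classical
  obtain ⟨s1, hs1, f1, hf1, hrun⟩ := (accepts_iff M₁ w).1 hw
  have h3 : ∀ w', Same w w' → ∀ s2 ∈ M₂.start, ∀ f2 ∈ M₂.accept,
      ¬ Run {x : σ₂ × Lt k × σ₂ | x.2.2 ∈ M₂.step x.1 x.2.1} s2 w' f2 := by
    intro w' hs s2 hs2 f2 hf2 hr
    exact h2 w' ((accepts_iff M₂ w').2 ⟨s2, hs2, f2, hf2, hr⟩) hs
  have : Fintype (FQ k σ₁ σ₂) := Fintype.ofFinite _
  obtain ⟨w₁, f, hf, r1, r2, r3⟩ := pump' _ _ _ _ _ _ hf1 hrun h3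
  rw [card_FQ] at r3
  obtain ⟨w₂, t1, t2, t3⟩ := short_run r1
    ((words k (hB k (Fintype.card σ₁) (Fintype.card σ₂))).toFinset)
    (fun t ht => by
      rw [List.mem_toFinset]
      exact mem_words _ _ (r3 t ht))
  refine ⟨w₂, (accepts_iff M₁ w₂).2 ⟨s1, hs1, f, hf, t1⟩, ?_, ?_, ?_⟩
  · intro w' hw' hs
    obtain ⟨s2, hs2, f2, hf2, hr⟩ := (accepts_iff M₂ w').1 hw'
    exact r2 w' ⟨fun t => (t2.1 t).trans (hs.1 t), t2.2.trans hs.2⟩ s2 hs2 f2 hf2 hr
  · intro t ht
    exact r3 t ((t2.1 t).2 ht)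
  · refine t3.trans ?_
    unfold lB vB
    have h4 := (List.toFinset_card_le (words k (hB k (Fintype.card σ₁) (Fintype.card σ₂)))).trans
      (length_words _)
    gcongr

/-- **Short witnesses of membership.** -/
theorem short_witness {σ : Type} [Fintype σ] (M : NFA (Lt k) σ) {w w' : List (Lt k)}
    (hw' : w' ∈ M.accepts) (hs : Same w w') :
    ∃ w₁ ∈ M.accepts, w₁.length ≤ Fintype.card σ * ((w.length + 1) * (w.length + 2)) ∧
      Same w w₁ := by
  classical
  obtain ⟨s, hs1, f, hf, hrun⟩ := (accepts_iff M w').1 hw'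
  obtain ⟨w2, t1, t2, t3⟩ := short_run hrun (vis [] w).toFinset (fun t ht => by
    rw [List.mem_toFinset]
    exact (hs.1 t).2 ht)
  refine ⟨w2, (accepts_iff M w2).2 ⟨s, hs1, f, hf, t1⟩, ?_, ?_⟩
  · refine t3.trans ?_
    have h1 := List.toFinset_card_le (vis [] w)
    rw [vis_length] at h1
    have h2 : (vis [] w).toFinset.card + 1 ≤ w.length + 2 := by omega
    exact Nat.mul_le_mul_left _ (Nat.mul_le_mul h1 h2)
  · exact ⟨fun t => (hs.1 t).trans (t2.1 t), hs.2.trans t2.2⟩

end Pool.Agent.FIM
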